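import Mathlib
import Pool.Graph.R_seed8.H925R.Szpiro.Semi

/-!
# Semistable curves with full 2-torsion close to a given one
-/

set_option autoImplicit false

namespace Pool.Agent.H461.Om

/-- all 2-torsion points are rational -/
def Full (W : WeierstrassCurve ℤ) : Prop :=
  ∃ r₁ r₂ r₃ : ℚ, ∀ x : ℚ,
    4 * x ^ 3 + W.b₂ * x ^ 2 + 2 * W.b₄ * x + W.b₆ = 4 * (x - r₁) * (x - r₂) * (x - r₃)

/-- semistable, minimal -/
def Semistable (W : WeierstrassCurve ℤ) : Prop := W.Δ ≠ 0 ∧ IsCoprime W.c₄ W.Δ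

/-- the product of the primes dividing the discriminant -/
def cond (W : WeierstrassCurve ℤ) : ℕ := ∏ p ∈ W.Δ.natAbs.primeFactors, p

/-- perturbation of the last two coefficients -/
def Pert (W : WeierstrassCurve ℤ) (t w : ℤ) : WeierstrassCurve ℤ where
  a₁ := W.a₁
  a₂ := W.a₂
  a₃ := W.a₃
  a₄ := W.a₄ - 36 * t
  a₆ := W.a₆ - 3 * W.b₂ * t - 2 * w

theorem Pert_b2 (W : WeierstrassCurve ℤ) (t w : ℤ) : (Pert W t w).b₂ = W.b₂ := by
  simp only [Pert, WeierstrassCurve.b₂]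

theorem Pert_c4 (W : WeierstrassCurve ℤ) (t w : ℤ) : (Pert W t w).c₄ = W.c₄ + 1728 * t := by
  simp only [Pert, WeierstrassCurve.c₄, WeierstrassCurve.b₂, WeierstrassCurve.b₄]
  ring

theorem Pert_c6 (W : WeierstrassCurve ℤ) (t w : ℤ) : (Pert W t w).c₆ = W.c₆ + 1728 * w := by
  simp only [Pert, WeierstrassCurve.c₆, WeierstrassCurve.b₂, WeierstrassCurve.b₄,
    WeierstrassCurve.b₆]
  ring

theorem Pert_D (W : WeierstrassCurve ℤ) (t w : ℤ) (Q : ℕ) (ht : (Q : ℤ) ∣ t) (hw : (Q : ℤ) ∣ w) :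
    (Q : ℤ) ∣ (Pert W t w).Δ - W.Δ := by
  rw [← ZMod.intCast_zmod_eq_zero_iff_dvd, Int.cast_sub, sub_eq_zero]
  have ht' : ((t : ℤ) : ZMod Q) = 0 := (ZMod.intCast_zmod_eq_zero_iff_dvd _ _).2 ht
  have hw' : ((w : ℤ) : ZMod Q) = 0 := (ZMod.intCast_zmod_eq_zero_iff_dvd _ _).2 hw
  have h : (Pert W t w).map (Int.castRingHom (ZMod Q)) = W.map (Int.castRingHom (ZMod Q)) := by
    ext
    · rfl
    · rfl
    · rfl
    · simp [Pert, WeierstrassCurve.map, ht']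
    · simp [Pert, WeierstrassCurve.map, ht', hw']
  have h2 := congrArg WeierstrassCurve.Δ h
  rw [WeierstrassCurve.map_Δ, WeierstrassCurve.map_Δ] at h2
  exact h2

/-- the discriminant of the cubic -/
theorem cubic_id (b2 b4 b6 c4 c6 x : ℚ) (h4 : c4 = b2 ^ 2 - 24 * b4)
    (h6 : c6 = -b2 ^ 3 + 36 * b2 * b4 - 216 * b6) :
    432 * (4 * x ^ 3 + b2 * x ^ 2 + 2 * b4 * x + b6) =
      (12 * x + b2) ^ 3 - 3 * c4 * (12 * x + b2) - 2 * c6 := by
  rw [h4, h6]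
  ring

theorem full_of (W : WeierstrassCurve ℤ) (s g u v : ℤ) (hs : s = 1 ∨ s = -1)
    (h4 : W.c₄ = g ^ 2 * (u ^ 2 + u * v + v ^ 2))
    (h6 : 2 * W.c₆ = s * (g ^ 3 * ((u - v) * (2 * u + v) * (u + 2 * v)))) : Full W := by
  refine ⟨((s * g * (2 * u + v) - W.b₂ : ℤ) : ℚ) / 12, ((s * g * (v - u) - W.b₂ : ℤ) : ℚ) / 12,
    ((s * g * (-u - 2 * v) - W.b₂ : ℤ) : ℚ) / 12, fun x => ?_⟩
  have hid := cubic_id W.b₂ W.b₄ W.b₆ W.c₄ W.c₆ x (by
    have := W.c₄.cast_inj (α := ℚ) |>.2 rfl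
    rw [WeierstrassCurve.c₄]; push_cast; ring) (by
    rw [WeierstrassCurve.c₆]; push_cast; ring)
  have h4' : (W.c₄ : ℚ) = g ^ 2 * (u ^ 2 + u * v + v ^ 2) := by exact_mod_cast h4
  have h6' : 2 * (W.c₆ : ℚ) = s * (g ^ 3 * ((u - v) * (2 * u + v) * (u + 2 * v))) := by
    exact_mod_cast h6
  have hs2 : (s : ℚ) ^ 2 = 1 := by
    rcases hs with rfl | rfl <;> norm_num
  have hs3 : (s : ℚ) ^ 3 = s := by rw [pow_succ, hs2, one_mul]
  have e : (432 : ℚ) ≠ 0 := by norm_num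
  apply mul_left_cancel₀ e
  rw [hid]
  push_cast
  rw [h6', h4']
  linear_combination ((g : ℚ) ^ 2 * (12 * x + W.b₂) * (3 * (u ^ 2 + u * v + v ^ 2))) * hs2 +
    ((g : ℚ) ^ 3 * ((u - v) * (2 * u + v) * (u + 2 * v))) * hs3

theorem cop_form {x y : ℤ} (h : IsCoprime x y) :
    IsCoprime (x ^ 2 + x * y + y ^ 2) (x * y * (x + y)) := by
  have h1 : IsCoprime (x ^ 2 + x * y + y ^ 2) x := by
    have e : x ^ 2 + x * y + y ^ 2 = y ^ 2 + x * (x + y) := by ring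
    rw [e]
    exact (h.symm.pow_left (m := 2)).add_mul_left_left _
  have h2 : IsCoprime (x ^ 2 + x * y + y ^ 2) y := by
    have e : x ^ 2 + x * y + y ^ 2 = x ^ 2 + y * (x + y) := by ring
    rw [e]
    exact (h.pow_left (m := 2)).add_mul_left_left _
  have h3 : IsCoprime (x ^ 2 + x * y + y ^ 2) (x + y) := by
    have e : x ^ 2 + x * y + y ^ 2 = x ^ 2 + (x + y) * y := by ring
    rw [e]
    have h4 : IsCoprime x (x + y) := by
      have := h.add_mul_left_right 1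
      rw [mul_one, add_comm] at this
      exact this
    exact (h4.pow_left (m := 2)).add_mul_left_left _
  exact (h1.mul_right h2).mul_right h3

/-- the curve given by a pair close to the pair of a given curve -/
theorem near_curve (W : WeierstrassCurve ℤ) (hW : Semistable W) (g u v : ℕ) (hg : g = 1 ∨ g = 2)
    (h4 : W.c₄ = (g : ℤ) ^ 2 * (u ^ 2 + u * v + v ^ 2))
    (hD : 256 * W.Δ = (g : ℤ) ^ 6 * (u * v * (u + v)) ^ 2) (Q : ℕ) (hQ : 2 ∣ Q)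
    (u' v' : ℕ) (hu' : 0 < u') (hv' : 0 < v') (hcop : Nat.Coprime u' v')
    (hmu : (u' : ℤ) ≡ u [ZMOD (2 * 1728 * Q : ℕ)]) (hmv : (v' : ℤ) ≡ v [ZMOD (2 * 1728 * Q : ℕ)]) :
    ∃ W' : WeierstrassCurve ℤ, W'.a₁ = W.a₁ ∧ W'.a₂ = W.a₂ ∧ W'.a₃ = W.a₃ ∧
      (Q : ℤ) ∣ W'.a₄ - W.a₄ ∧ (Q : ℤ) ∣ W'.a₆ - W.a₆ ∧
      W'.c₄ = (g : ℤ) ^ 2 * (u' ^ 2 + u' * v' + v' ^ 2) ∧
      256 * W'.Δ = (g : ℤ) ^ 6 * (u' * v' * (u' + v')) ^ 2 ∧ Semistable W' ∧ Full W' := by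
  have hrel := W.c_relation
  obtain ⟨s, hs, h6⟩ : ∃ s : ℤ, (s = 1 ∨ s = -1) ∧
      2 * W.c₆ = s * ((g : ℤ) ^ 3 * (((u : ℤ) - v) * (2 * u + v) * (u + 2 * v))) := by
    have h5 : (2 * W.c₆) ^ 2 = ((g : ℤ) ^ 3 * (((u : ℤ) - v) * (2 * u + v) * (u + 2 * v))) ^ 2 := by
      rw [h4] at hrel
      linear_combination 4 * hrel - 27 * hD
    rcases sq_eq_sq_iff_eq_or_eq_neg.1 h5 with h | h
    · exact ⟨1, Or.inl rfl, by rw [h]; ring⟩
    · exact ⟨-1, Or.inr rfl, by rw [h]; ring⟩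
  have hP : (g : ℤ) ^ 3 * (((u' : ℤ) - v') * (2 * u' + v') * (u' + 2 * v')) ≡
      (g : ℤ) ^ 3 * (((u : ℤ) - v) * (2 * u + v) * (u + 2 * v)) [ZMOD (2 * 1728 * Q : ℕ)] :=
    Int.ModEq.mul_left _ (((hmu.sub hmv).mul ((hmu.mul_left 2).add hmv)).mul
      (hmu.add (hmv.mul_left 2)))
  have hc : (g : ℤ) ^ 2 * ((u' : ℤ) ^ 2 + u' * v' + v' ^ 2) ≡
      (g : ℤ) ^ 2 * ((u : ℤ) ^ 2 + u * v + v ^ 2) [ZMOD (2 * 1728 * Q : ℕ)] :=
    Int.ModEq.mul_left _ (((hmu.pow 2).add (hmu.mul hmv)).add (hmv.pow 2))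
  obtain ⟨k, hk⟩ := hP.symm.dvd
  obtain ⟨l, hl⟩ := hc.symm.dvd
  push_cast at hk hl
  set t : ℤ := 2 * Q * l with ht
  set w : ℤ := s * (Q * k) with hw
  have hc4 : (Pert W t w).c₄ = (g : ℤ) ^ 2 * (u' ^ 2 + u' * v' + v' ^ 2) := by
    rw [Pert_c4, h4, ht]
    linarith
  have hc6 : 2 * (Pert W t w).c₆ =
      s * ((g : ℤ) ^ 3 * (((u' : ℤ) - v') * (2 * u' + v') * (u' + 2 * v'))) := by
    rw [Pert_c6, mul_add, h6, hw]
    linear_combination (-s) * hk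
  have hrel' := (Pert W t w).c_relation
  have hs2 : s ^ 2 = 1 := by rcases hs with rfl | rfl <;> norm_num
  have hD' : 256 * (Pert W t w).Δ = (g : ℤ) ^ 6 * (u' * v' * (u' + v')) ^ 2 := by
    have h7 : (2 * (Pert W t w).c₆) ^ 2 =
        ((g : ℤ) ^ 3 * (((u' : ℤ) - v') * (2 * u' + v') * (u' + 2 * v'))) ^ 2 := by
      rw [hc6, mul_pow, hs2, one_mul]
    have h8 : 27 * (256 * (Pert W t w).Δ) = 27 * ((g : ℤ) ^ 6 * (u' * v' * (u' + v')) ^ 2) := by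
      rw [hc4] at hrel'
      linear_combination 4 * hrel' - h7
    exact mul_left_cancel₀ (by norm_num) h8
  have hu0 : (0 : ℤ) < u' := by exact_mod_cast hu'
  have hv0 : (0 : ℤ) < v' := by exact_mod_cast hv'
  have hg0 : (0 : ℤ) < g := by rcases hg with rfl | rfl <;> norm_num
  have hΔ : (Pert W t w).Δ ≠ 0 := by
    intro h0
    rw [h0] at hD'
    have : 0 < (g : ℤ) ^ 6 * (u' * v' * (u' + v')) ^ 2 := by positivity
    linarith
  have hQt : (Q : ℤ) ∣ t := ⟨2 * l, by rw [ht]; ring⟩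
  have hQw : (Q : ℤ) ∣ w := ⟨s * k, by rw [hw]; ring⟩
  refine ⟨Pert W t w, rfl, rfl, rfl, ?_, ?_, hc4, hD', ⟨hΔ, ?_⟩, full_of _ s g u' v' hs hc4 hc6⟩
  · have : (Pert W t w).a₄ - W.a₄ = -36 * t := by
      show W.a₄ - 36 * t - W.a₄ = -36 * t
      ring
    rw [this]
    exact hQt.mul_left _
  · have : (Pert W t w).a₆ - W.a₆ = -(3 * W.b₂) * t + -2 * w := by
      show W.a₆ - 3 * W.b₂ * t - 2 * w - W.a₆ = _
      ring
    rw [this]
    exact (hQt.mul_left _).add (hQw.mul_left _)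
  · rw [Int.isCoprime_iff_gcd_eq_one]
    by_contra hgcd
    obtain ⟨p, hp, hpd⟩ := Nat.exists_prime_and_dvd hgcd
    have h1 : (p : ℤ) ∣ (Pert W t w).c₄ := (Int.natCast_dvd_natCast.2 hpd).trans (Int.gcd_dvd_left _ _)
    have h2 : (p : ℤ) ∣ (Pert W t w).Δ := (Int.natCast_dvd_natCast.2 hpd).trans (Int.gcd_dvd_right _ _)
    have hpI : Prime (p : ℤ) := Nat.prime_iff_prime_int.1 hp
    by_cases hp2 : p = 2
    · subst hp2
      have hQ2 : ((2 : ℕ) : ℤ) ∣ (Q : ℤ) := Int.natCast_dvd_natCast.2 hQ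
      have h3 : ((2 : ℕ) : ℤ) ∣ W.Δ := by
        have h5 := hQ2.trans (Pert_D W t w Q hQt hQw)
        have := h2.sub h5
        simpa using this
      have h5 : ((2 : ℕ) : ℤ) ∣ W.c₄ := by
        rw [Pert_c4] at h1
        have h6 : ((2 : ℕ) : ℤ) ∣ 1728 * t := (hQ2.trans hQt).mul_left _
        have := h1.sub h6
        simpa using this
      have h7 := (hW.2.isUnit_of_dvd' h5 h3)
      exact absurd (Int.isUnit_iff.1 h7) (by norm_num)
    · have hpg : ¬ (p : ℤ) ∣ g := by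
        intro hd
        have hd' : p ∣ g := Int.natCast_dvd_natCast.1 hd
        rcases hg with rfl | rfl
        · exact hp.one_lt.ne' (Nat.dvd_one.1 hd')
        · exact hp2 ((Nat.prime_dvd_prime_iff_eq hp Nat.prime_two).1 hd')
      have h3 : (p : ℤ) ∣ (u' : ℤ) ^ 2 + u' * v' + v' ^ 2 := by
        rw [hc4] at h1
        rcases hpI.dvd_or_dvd h1 with h | h
        · exact absurd (hpI.dvd_of_dvd_pow h) hpg
        · exact h
      have h5 : (p : ℤ) ∣ (u' : ℤ) * v' * (u' + v') := by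
        have h6 : (p : ℤ) ∣ (g : ℤ) ^ 6 * (u' * v' * (u' + v')) ^ 2 := by
          rw [← hD']
          exact h2.mul_left _
        rcases hpI.dvd_or_dvd h6 with h | h
        · exact absurd (hpI.dvd_of_dvd_pow h) hpg
        · exact hpI.dvd_of_dvd_pow h
      have hcZ : IsCoprime (u' : ℤ) (v' : ℤ) := Nat.isCoprime_iff_coprime.mpr hcop
      have h7 := (cop_form hcZ).isUnit_of_dvd' h3 h5
      exact hpI.not_isUnit h7

end Pool.Agent.H461.Om
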