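import Pool.Agent.H461.Om.Model

/-!
# Elementary estimates for the curve of a good pair
-/

set_option autoImplicit false

namespace Pool.Agent.H461.Om

open Finset Filter Topology

lemma rad_le {a n : ℕ} (hn : n ≠ 0) (h : ∀ p : ℕ, p.Prime → p ∣ a → p ∣ n) :
    ∏ p ∈ a.primeFactors, p ≤ n := by
  have h1 : a.primeFactors ⊆ n.primeFactors := by
    intro p hp
    have hpp := Nat.prime_of_mem_primeFactors hp
    exact Nat.mem_primeFactors.mpr ⟨hpp, h p hpp (Nat.dvd_of_mem_primeFactors hp), hn⟩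
  refine Nat.le_of_dvd (Nat.pos_of_ne_zero hn) ?_
  exact (prod_dvd_prod_of_subset _ _ _ h1).trans (Nat.prod_primeFactors_dvd _)

/-- the invariant as a function of the quotient of the pair -/
noncomputable def J (r : ℝ) : ℝ := 256 * (1 + r + r ^ 2) ^ 3 / (r * (1 + r)) ^ 2

lemma J_eq {g u v : ℕ} {c4 D : ℤ} (hg : g = 1 ∨ g = 2) (hu : 0 < u) (hv : 0 < v)
    (h4 : c4 = (g : ℤ) ^ 2 * (u ^ 2 + u * v + v ^ 2))
    (hD : 256 * D = (g : ℤ) ^ 6 * (u * v * (u + v)) ^ 2) :
    (c4 : ℝ) ^ 3 / (D : ℝ) = J ((v : ℝ) / u) := by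
  have hu0 : (0 : ℝ) < u := by exact_mod_cast hu
  have hv0 : (0 : ℝ) < v := by exact_mod_cast hv
  have hg0 : (0 : ℝ) < g := by rcases hg with rfl | rfl <;> norm_num
  have h4' : (c4 : ℝ) = (g : ℝ) ^ 2 * (u ^ 2 + u * v + v ^ 2) := by exact_mod_cast h4
  have hD' : 256 * (D : ℝ) = (g : ℝ) ^ 6 * (u * v * (u + v)) ^ 2 := by exact_mod_cast hD
  have hD2 : (D : ℝ) = (g : ℝ) ^ 6 * (u * v * (u + v)) ^ 2 / 256 := by linarith
  unfold J
  rw [h4', hD2]
  field_simp

lemma num_cond {D : ℤ} {g u v x y m w : ℕ} (hg : g = 1 ∨ g = 2) (hu : 0 < u) (hv : 0 < v)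
    (hx : 0 < x) (hy : 0 < y) (hw : 0 < w)
    (h : 256 * D = ((g ^ 6 * (u * x ^ m * (v * y ^ m) * w) ^ 2 : ℕ) : ℤ)) :
    ∏ p ∈ D.natAbs.primeFactors, p ≤ 2 * u * v * (x * y * w) := by
  have hn0 : 2 * u * v * (x * y * w) ≠ 0 := by positivity
  apply rad_le hn0
  intro p hp hpd
  have h2 : (p : ℤ) ∣ D := Int.natCast_dvd.2 hpd
  have h3 : (p : ℤ) ∣ (((g ^ 6 * (u * x ^ m * (v * y ^ m) * w) ^ 2 : ℕ)) : ℤ) := by
    rw [← h]
    exact h2.mul_left _
  have h5 : p ∣ g ^ 6 * (u * x ^ m * (v * y ^ m) * w) ^ 2 := Int.natCast_dvd_natCast.1 h3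
  rcases (Nat.Prime.dvd_mul hp).1 h5 with h | h
  · have h6 := hp.dvd_of_dvd_pow h
    have h7 : p ∣ 2 := by
      rcases hg with rfl | rfl
      · exact h6.trans (by norm_num)
      · exact h6
    have : 2 ∣ 2 * u * v * (x * y * w) := ⟨u * v * (x * y * w), by ring⟩
    exact h7.trans this
  · have h6 := hp.dvd_of_dvd_pow h
    rcases (Nat.Prime.dvd_mul hp).1 h6 with h | h
    · rcases (Nat.Prime.dvd_mul hp).1 h with h | h
      · rcases (Nat.Prime.dvd_mul hp).1 h with h | h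
        · have : u ∣ 2 * u * v * (x * y * w) := ⟨2 * v * (x * y * w), by ring⟩
          exact h.trans this
        · have h8 := hp.dvd_of_dvd_pow h
          have : x ∣ 2 * u * v * (x * y * w) := ⟨2 * u * v * (y * w), by ring⟩
          exact h8.trans this
      · rcases (Nat.Prime.dvd_mul hp).1 h with h | h
        · have : v ∣ 2 * u * v * (x * y * w) := ⟨2 * u * (x * y * w), by ring⟩
          exact h.trans this
        · have h8 := hp.dvd_of_dvd_pow h
          have : y ∣ 2 * u * v * (x * y * w) := ⟨2 * u * v * (x * w), by ring⟩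
          exact h8.trans this
    · have : w ∣ 2 * u * v * (x * y * w) := ⟨2 * u * v * (x * y), by ring⟩
      exact h.trans this

open ArithmeticFunction in
lemma num_omega {D : ℤ} {g u v x y m w : ℕ} (hg : g = 1 ∨ g = 2) (hu : 0 < u) (hv : 0 < v)
    (hx : 0 < x) (hy : 0 < y) (hw : 0 < w)
    (h : 256 * D = ((g ^ 6 * (u * x ^ m * (v * y ^ m) * w) ^ 2 : ℕ) : ℤ)) :
    cardFactors D.natAbs ≤ 6 * cardFactors g + 2 * (cardFactors u + m * cardFactors x +
      (cardFactors v + m * cardFactors y) + cardFactors w) := by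
  have hg0 : g ≠ 0 := by rcases hg with rfl | rfl <;> norm_num
  have h1 : 256 * D.natAbs = g ^ 6 * (u * x ^ m * (v * y ^ m) * w) ^ 2 := by
    have := congrArg Int.natAbs h
    rw [Int.natAbs_mul, Int.natAbs_natCast] at this
    exact this
  have hD0 : D.natAbs ≠ 0 := by
    intro h0
    rw [h0, mul_zero] at h1
    have : 0 < g ^ 6 * (u * x ^ m * (v * y ^ m) * w) ^ 2 := by positivity
    omega
  have h2 : cardFactors (256 * D.natAbs) = cardFactors 256 + cardFactors D.natAbs :=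
    cardFactors_mul (by norm_num) hD0
  have h3 : cardFactors (g ^ 6 * (u * x ^ m * (v * y ^ m) * w) ^ 2) =
      6 * cardFactors g + 2 * (cardFactors u + m * cardFactors x +
      (cardFactors v + m * cardFactors y) + cardFactors w) := by
    rw [cardFactors_mul (by positivity) (by positivity), cardFactors_pow, cardFactors_pow,
      cardFactors_mul (by positivity) (by positivity),
      cardFactors_mul (by positivity) (by positivity),
      cardFactors_mul (by positivity) (by positivity),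
      cardFactors_mul (by positivity) (by positivity), cardFactors_pow, cardFactors_pow]
  rw [h1, h3] at h2
  omega

lemma num_disc {D : ℤ} {g u v x y m L : ℕ} (hg : g = 1 ∨ g = 2) (hu : 0 < u) (hv : 0 < v)
    (hx : L ≤ x) (hy : L ≤ y)
    (h : 256 * D = ((g ^ 6 * (u * x ^ m * (v * y ^ m) * (u * x ^ m + v * y ^ m)) ^ 2 : ℕ) : ℤ)) :
    (((L ^ (3 * m)) ^ 2 : ℕ) : ℤ) ≤ 256 * D := by
  rw [h]
  have hg0 : 1 ≤ g := by rcases hg with rfl | rfl <;> norm_num
  have e1 : L ^ m ≤ u * x ^ m := (Nat.pow_le_pow_left hx m).trans (Nat.le_mul_of_pos_left _ hu)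
  have e2 : L ^ m ≤ v * y ^ m := (Nat.pow_le_pow_left hy m).trans (Nat.le_mul_of_pos_left _ hv)
  have h1 : L ^ (3 * m) ≤ (u * x ^ m) * (v * y ^ m) * (u * x ^ m + v * y ^ m) := by
    have e3 : L ^ m ≤ u * x ^ m + v * y ^ m := e1.trans (Nat.le_add_right _ _)
    calc L ^ (3 * m) = L ^ m * L ^ m * L ^ m := by ring
      _ ≤ _ := Nat.mul_le_mul (Nat.mul_le_mul e1 e2) e3
  have h2 : (L ^ (3 * m)) ^ 2 ≤ 1 * ((u * x ^ m) * (v * y ^ m) * (u * x ^ m + v * y ^ m)) ^ 2 := by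
    rw [one_mul]
    exact Nat.pow_le_pow_left h1 2
  exact_mod_cast h2.trans (Nat.mul_le_mul_right _ (Nat.one_le_pow _ _ hg0))

lemma num_cond2 {u v x y m w L K N : ℕ} (hxy : x ≤ y) (hy : y ≤ K * L)
    (hw : w ≤ (u + v) * y ^ m) (h : N ≤ 2 * u * v * (x * y * w)) :
    N ≤ 2 * u * v * (u + v) * K ^ (m + 2) * L ^ (m + 2) := by
  have h1 : x * y * w ≤ (K * L) * (K * L) * ((u + v) * (K * L) ^ m) :=
    Nat.mul_le_mul (Nat.mul_le_mul (hxy.trans hy) hy)
      (hw.trans (Nat.mul_le_mul_left _ (Nat.pow_le_pow_left hy m)))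
  calc N ≤ 2 * u * v * (x * y * w) := h
    _ ≤ 2 * u * v * ((K * L) * (K * L) * ((u + v) * (K * L) ^ m)) := Nat.mul_le_mul_left _ h1
    _ = 2 * u * v * (u + v) * K ^ (m + 2) * L ^ (m + 2) := by
        rw [mul_pow]
        ring

end Pool.Agent.H461.Om
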