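import Pool.Agent.H461.Om.Sieve

/-!
# Many pairs
-/

set_option autoImplicit false

namespace Pool.Agent.H461.Om

open Finset Filter Topology

lemma log_small (m : ℕ) (κ c : ℝ) (hκ : 0 < κ) (hc : 0 < c) : ∃ L₀ : ℕ, ∀ L : ℕ, L₀ ≤ L →
    Real.log L ^ m ≤ c * (L : ℝ) ^ κ := by
  have h1 := (isLittleO_log_rpow_rpow_atTop (m : ℝ) hκ).bound hc
  have h2 : ∀ᶠ L : ℕ in atTop, ‖Real.log (L : ℝ) ^ (m : ℝ)‖ ≤ c * ‖((L : ℝ)) ^ κ‖ :=
    tendsto_natCast_atTop_atTop.eventually h1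
  obtain ⟨L₀, h3⟩ := eventually_atTop.1 h2
  refine ⟨L₀, fun L hL => ?_⟩
  have h4 := h3 L hL
  rw [Real.rpow_natCast, Real.norm_eq_abs, Real.norm_eq_abs,
    abs_of_nonneg (by positivity : (0 : ℝ) ≤ (L : ℝ) ^ κ)] at h4
  exact (le_abs_self _).trans h4

/-- the properties of the pairs -/
structure GoodPair (m M B u v L : ℕ) (κ : ℝ) (n n' : ℕ) : Prop where
  r1 : n ∈ Ioc (B * L) (B * L + L)
  r2 : n' ∈ Ioc (B * L + L) (B * L + L + L)
  cop : Nat.Coprime (1 + M * n) (1 + M * n')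
  p1 : ∀ p : ℕ, p.Prime → p ∣ 1 + M * n → (L : ℝ) ^ κ ≤ p
  p2 : ∀ p : ℕ, p.Prime → p ∣ 1 + M * n' → (L : ℝ) ^ κ ≤ p
  p3 : ∀ p : ℕ, p.Prime → ¬ p ∣ M → p ∣ u * (1 + M * n) ^ m + v * (1 + M * n') ^ m → (L : ℝ) ^ κ ≤ p

lemma not_dvd_M {M n p : ℕ} (hp : p.Prime) (h : p ∣ 1 + M * n) : ¬ p ∣ M := by
  intro hM
  have h1 : p ∣ 1 := (Nat.dvd_add_left (hM.mul_right n)).1 h
  exact hp.one_lt.ne' (Nat.dvd_one.1 h1)

open Classical in
theorem pairs (m : ℕ) (hm : 1 ≤ m) (M u v B : ℕ) (huM : u ∣ M)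
    (hMp : ∀ p : ℕ, p.Prime → p ≤ m + 1 → p ∣ M) :
    ∃ (κ c : ℝ) (L₀ : ℕ), 0 < κ ∧ 0 < c ∧ ∀ L : ℕ, L₀ ≤ L → ∃ T : Finset (ℕ × ℕ),
      c * ((L : ℝ) ^ 2 / Real.log L ^ (m + 2)) ≤ (T.card : ℝ) ∧
      ∀ t ∈ T, GoodPair m M B u v L κ t.1 t.2 := by
  obtain ⟨κ₁, c₁, L₁, hκ₁, hκ₁', hc₁, hy⟩ := many_y
  obtain ⟨κ₂, c₂, L₂, hκ₂, hκ₂', hc₂, hx⟩ := many_x m hm
  obtain ⟨L₃, h₃⟩ := log_small (m + 2) κ₁ (c₂ / 12) hκ₁ (by positivity)
  refine ⟨min κ₁ κ₂, c₁ * (c₂ / 2), max (max L₁ L₂) (max (max L₃ 3) (M * (B + 2) + 1)),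
    lt_min hκ₁ hκ₂, by positivity, fun L hL => ?_⟩
  have hL1 : L₁ ≤ L := (le_max_left _ _).trans ((le_max_left _ _).trans hL)
  have hL2 : L₂ ≤ L := (le_max_right _ _).trans ((le_max_left _ _).trans hL)
  have hL3 : L₃ ≤ L := (le_max_left _ _).trans ((le_max_left _ _).trans ((le_max_right _ _).trans hL))
  have hL4 : 3 ≤ L := (le_max_right _ _).trans ((le_max_left _ _).trans ((le_max_right _ _).trans hL))
  have hL5 : M * (B + 2) + 1 ≤ L := (le_max_right _ _).trans ((le_max_right _ _).trans hL)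
  have hLr : (3 : ℝ) ≤ L := by exact_mod_cast hL4
  have hL0 : (0 : ℝ) < L := by linarith
  have hLone : (1 : ℝ) < L := by linarith
  have hlog1 : 1 ≤ Real.log L := by
    rw [Real.le_log_iff_exp_le hL0]
    exact (Real.exp_one_lt_d9.le.trans (by norm_num)).trans hLr
  have hlog0 : 0 < Real.log L := by linarith
  set Y := (Ioc (B * L + L) (B * L + L + L)).filter (fun n => ∀ p : ℕ, p.Prime →
      (p : ℝ) ≤ (L : ℝ) ^ κ₁ → ¬ p ∣ M → ¬ p ∣ 1 + M * n) with hY
  have hYc : c₁ * (L / Real.log L) ≤ (Y.card : ℝ) := hy L (B * L + L) M hL1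
  set XX : ℕ → Finset ℕ := fun n' => ((Ioc (B * L) (B * L + L)).filter (fun n => ∀ p : ℕ, p.Prime →
        (p : ℝ) ≤ (L : ℝ) ^ κ₂ → ¬ p ∣ M →
        ¬ p ∣ (1 + M * n) * (u * (1 + M * n) ^ m + v * (1 + M * n') ^ m))).filter
      (fun n => Nat.Coprime (1 + M * n) (1 + M * n')) with hXX
  have hXc : ∀ n' ∈ Y, c₂ / 2 * (L / Real.log L ^ (m + 1)) ≤ ((XX n').card : ℝ) := by
    intro n' hn'
    rw [hY, mem_filter, mem_Ioc] at hn'
    have h1 := hx L (B * L) M u (v * (1 + M * n') ^ m) hL2 huM hMp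
    have h2 : (((Ioc (B * L) (B * L + L)).filter (fun n => ∀ p : ℕ, p.Prime →
        (p : ℝ) ≤ (L : ℝ) ^ κ₂ → ¬ p ∣ M →
        ¬ p ∣ (1 + M * n) * (u * (1 + M * n) ^ m + v * (1 + M * n') ^ m))).card : ℝ) ≤
        ((XX n').card : ℝ) +
        (((Ioc (B * L) (B * L + L)).filter (fun n => ¬ Nat.Coprime (1 + M * n) (1 + M * n'))).card : ℝ) := by
      have h3 := card_filter_add_card_filter_not (s := (Ioc (B * L) (B * L + L)).filter
        (fun n => ∀ p : ℕ, p.Prime → (p : ℝ) ≤ (L : ℝ) ^ κ₂ → ¬ p ∣ M →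
        ¬ p ∣ (1 + M * n) * (u * (1 + M * n) ^ m + v * (1 + M * n') ^ m)))
        (fun n => Nat.Coprime (1 + M * n) (1 + M * n'))
      have h4 : (((Ioc (B * L) (B * L + L)).filter
        (fun n => ∀ p : ℕ, p.Prime → (p : ℝ) ≤ (L : ℝ) ^ κ₂ → ¬ p ∣ M →
        ¬ p ∣ (1 + M * n) * (u * (1 + M * n) ^ m + v * (1 + M * n') ^ m))).filter
        (fun n => ¬ Nat.Coprime (1 + M * n) (1 + M * n'))).card ≤
        ((Ioc (B * L) (B * L + L)).filter (fun n => ¬ Nat.Coprime (1 + M * n) (1 + M * n'))).card := by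
        apply card_le_card
        exact filter_subset_filter _ (filter_subset _ _)
      rw [← h3]
      push_cast
      have h5 : ((XX n').card : ℝ) = (((Ioc (B * L) (B * L + L)).filter
        (fun n => ∀ p : ℕ, p.Prime → (p : ℝ) ≤ (L : ℝ) ^ κ₂ → ¬ p ∣ M →
        ¬ p ∣ (1 + M * n) * (u * (1 + M * n) ^ m + v * (1 + M * n') ^ m))).filter
        (fun n => Nat.Coprime (1 + M * n) (1 + M * n'))).card := by rw [hXX]
      rw [h5]
      have h6 : ((((Ioc (B * L) (B * L + L)).filter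
        (fun n => ∀ p : ℕ, p.Prime → (p : ℝ) ≤ (L : ℝ) ^ κ₂ → ¬ p ∣ M →
        ¬ p ∣ (1 + M * n) * (u * (1 + M * n) ^ m + v * (1 + M * n') ^ m))).filter
        (fun n => ¬ Nat.Coprime (1 + M * n) (1 + M * n'))).card : ℝ) ≤
        ((Ioc (B * L) (B * L + L)).filter (fun n => ¬ Nat.Coprime (1 + M * n) (1 + M * n'))).card := by
        exact_mod_cast h4
      linarith
    have h7 := bad_count L (B * L) M (1 + M * n') ((L : ℝ) ^ κ₁) (Real.one_le_rpow hLone.le hκ₁.le)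
      (by positivity) (fun p hp hpd => by
        have hpM := not_dvd_M hp hpd
        refine ⟨?_, hpM⟩
        by_contra hcon
        push Not at hcon
        exact hn'.2 p hp hcon.le hpM hpd)
    -- the size of the logarithm
    have hysq : 1 + M * n' ≤ L ^ 2 := by
      have h8 : n' ≤ (B + 2) * L := by nlinarith [hn'.1.2]
      calc 1 + M * n' ≤ L + M * ((B + 2) * L) := by
            have := Nat.mul_le_mul_left M h8
            omega
        _ = (M * (B + 2) + 1) * L := by ring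
        _ ≤ L * L := Nat.mul_le_mul_right _ hL5
        _ = L ^ 2 := by ring
    have hlog2 : (Nat.log 2 (1 + M * n') : ℝ) ≤ 3 * Real.log L := by
      have h9 : (Nat.log 2 (1 + M * n') : ℝ) ≤ Real.logb 2 (1 + M * n' : ℕ) := by
        have := Real.natLog_le_logb (1 + M * n') 2
        exact_mod_cast this
      have h10 : Real.logb 2 (1 + M * n' : ℕ) ≤ Real.logb 2 ((L : ℝ) ^ 2) := by
        apply Real.logb_le_logb_of_le (by norm_num)
        · positivity
        · exact_mod_cast hysq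
      rw [Real.logb, Real.logb, Real.log_pow] at h10
      have h11 : (2 : ℕ) * Real.log L / Real.log 2 ≤ 3 * Real.log L := by
        rw [div_le_iff₀ (Real.log_pos (by norm_num))]
        have := Real.log_two_gt_d9
        push_cast
        nlinarith
      rw [Real.logb] at h9
      linarith
    have hbad : (Nat.log 2 (1 + M * n') : ℝ) * (L / (L : ℝ) ^ κ₁ + 1) ≤
        c₂ / 2 * (L / Real.log L ^ (m + 1)) := by
      have hlk : (1 : ℝ) ≤ L / (L : ℝ) ^ κ₁ := by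
        rw [one_le_div (by positivity)]
        calc (L : ℝ) ^ κ₁ ≤ (L : ℝ) ^ (1 : ℝ) := Real.rpow_le_rpow_of_exponent_le hLone.le hκ₁'
          _ = L := Real.rpow_one _
      calc (Nat.log 2 (1 + M * n') : ℝ) * (L / (L : ℝ) ^ κ₁ + 1)
          ≤ (3 * Real.log L) * (2 * (L / (L : ℝ) ^ κ₁)) := by
            apply mul_le_mul hlog2 (by linarith) (by positivity) (by positivity)
        _ = 6 * Real.log L ^ (m + 2) / (L : ℝ) ^ κ₁ * (L / Real.log L ^ (m + 1)) := by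
            have : Real.log L ^ (m + 1) ≠ 0 := by positivity
            field_simp
            ring
        _ ≤ c₂ / 2 * (L / Real.log L ^ (m + 1)) := by
            apply mul_le_mul_of_nonneg_right _ (by positivity)
            rw [div_le_iff₀ (by positivity)]
            have := h₃ L hL3
            linarith
    have h12 : c₂ * (L / Real.log L ^ (m + 1)) = c₂ / 2 * (L / Real.log L ^ (m + 1)) +
      c₂ / 2 * (L / Real.log L ^ (m + 1)) := by ring
    linarith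
  -- the pairs
  refine ⟨(Y.sigma XX).image (fun t => (t.2, t.1)), ?_, ?_⟩
  · rw [card_image_of_injOn, card_sigma]
    · calc c₁ * (c₂ / 2) * ((L : ℝ) ^ 2 / Real.log L ^ (m + 2)) =
          (c₁ * (L / Real.log L)) * (c₂ / 2 * (L / Real.log L ^ (m + 1))) := by
            field_simp
            ring
        _ ≤ Y.card * (c₂ / 2 * (L / Real.log L ^ (m + 1))) :=
            mul_le_mul_of_nonneg_right hYc (by positivity)
        _ = ∑ _n' ∈ Y, (c₂ / 2 * (L / Real.log L ^ (m + 1))) := by rw [sum_const, nsmul_eq_mul]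
        _ ≤ ∑ n' ∈ Y, ((XX n').card : ℝ) := sum_le_sum hXc
        _ = _ := by push_cast; rfl
    · rintro ⟨a, b⟩ - ⟨a', b'⟩ - h
      simp only [Prod.mk.injEq] at h
      obtain ⟨rfl, rfl⟩ := h
      rfl
  · intro t ht
    obtain ⟨⟨n', n⟩, hs, rfl⟩ := mem_image.1 ht
    rw [mem_sigma] at hs
    obtain ⟨hn', hn⟩ := hs
    simp only at hn' hn ⊢
    rw [hY, mem_filter] at hn'
    rw [hXX, mem_filter, mem_filter] at hn
    have hk1 : (L : ℝ) ^ (min κ₁ κ₂) ≤ (L : ℝ) ^ κ₁ :=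
      Real.rpow_le_rpow_of_exponent_le hLone.le (min_le_left _ _)
    have hk2 : (L : ℝ) ^ (min κ₁ κ₂) ≤ (L : ℝ) ^ κ₂ :=
      Real.rpow_le_rpow_of_exponent_le hLone.le (min_le_right _ _)
    refine ⟨hn.1.1, hn'.1, hn.2, ?_, ?_, ?_⟩
    · intro p hp hd
      by_contra hcon
      push Not at hcon
      exact hn.1.2 p hp (by linarith) (not_dvd_M hp hd) (hd.mul_right _)
    · intro p hp hd
      by_contra hcon
      push Not at hcon
      exact hn'.2 p hp (by linarith) (not_dvd_M hp hd) hd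
    · intro p hp hpM hd
      by_contra hcon
      push Not at hcon
      exact hn.1.2 p hp (by linarith) hpM (hd.mul_left _)

end Pool.Agent.H461.Om
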