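import Mathlib
import Pool.Graph.R_pool_sql_team_seeded_1acbe0a2.Y987.SZ.Forms

/-!
# Rough values of `x (u x ^ m + v y ^ m)`
-/

set_option autoImplicit false

namespace Pool.Agent.H461.Om

open Finset Filter

lemma card_classes {p M u m w : ℕ} (hm : 1 ≤ m) (hp : p.Prime) (hM : ¬ p ∣ M) (hu : ¬ p ∣ u) :
    ((range p).filter (fun c => p ∣ (1 + M * c) * (u * (1 + M * c) ^ m + w))).card ≤ m + 1 := by
  classical
  have : Fact p.Prime := ⟨hp⟩
  set f : Polynomial (ZMod p) := Polynomial.X * (Polynomial.C (u : ZMod p) * Polynomial.X ^ m +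
    Polynomial.C (w : ZMod p)) with hf
  have hu0 : (u : ZMod p) ≠ 0 := by
    rw [Ne, ZMod.natCast_eq_zero_iff]
    exact hu
  have hM0 : (M : ZMod p) ≠ 0 := by
    rw [Ne, ZMod.natCast_eq_zero_iff]
    exact hM
  have hdeg : f.natDegree ≤ m + 1 := by
    rw [hf]
    refine (Polynomial.natDegree_mul_le).trans ?_
    have h1 : (Polynomial.X : Polynomial (ZMod p)).natDegree ≤ 1 := Polynomial.natDegree_X_le
    have h2 : (Polynomial.C (u : ZMod p) * Polynomial.X ^ m +
        Polynomial.C (w : ZMod p)).natDegree ≤ m := by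
      refine Polynomial.natDegree_add_le_of_degree_le ?_ ?_
      · exact Polynomial.natDegree_C_mul_X_pow_le _ _
      · rw [Polynomial.natDegree_C]; exact Nat.zero_le _
    omega
  have hf0 : f ≠ 0 := by
    intro h0
    have h1 : (Polynomial.C (u : ZMod p) * Polynomial.X ^ m + Polynomial.C (w : ZMod p)) = 0 := by
      rcases mul_eq_zero.1 h0 with h | h
      · exact absurd h Polynomial.X_ne_zero
      · exact h
    have h2 := congrArg (fun q => Polynomial.coeff q m) h1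
    simp only [Polynomial.coeff_add, Polynomial.coeff_C_mul, Polynomial.coeff_X_pow_self,
      Polynomial.coeff_zero, Polynomial.coeff_C] at h2
    rw [if_neg (by omega)] at h2
    simp at h2
    exact hu0 h2
  have hinj : Set.InjOn (fun c : ℕ => ((1 + M * c : ℕ) : ZMod p))
      ((range p).filter (fun c => p ∣ (1 + M * c) * (u * (1 + M * c) ^ m + w)) : Set ℕ) := by
    intro a ha b hb hab
    have ha' := mem_range.1 (mem_filter.1 ha).1
    have hb' := mem_range.1 (mem_filter.1 hb).1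
    simp only [Nat.cast_add, Nat.cast_one, Nat.cast_mul, add_right_inj] at hab
    have h1 := mul_left_cancel₀ hM0 hab
    rw [ZMod.natCast_eq_natCast_iff] at h1
    exact Nat.ModEq.eq_of_lt_of_lt h1 ha' hb'
  have hsub : ((range p).filter (fun c => p ∣ (1 + M * c) * (u * (1 + M * c) ^ m + w))).image
      (fun c : ℕ => ((1 + M * c : ℕ) : ZMod p)) ⊆ f.roots.toFinset := by
    intro z hz
    obtain ⟨c, hc, rfl⟩ := mem_image.1 hz
    have hd := (mem_filter.1 hc).2
    rw [Multiset.mem_toFinset, Polynomial.mem_roots hf0, Polynomial.IsRoot, hf]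
    have h1 : (((1 + M * c) * (u * (1 + M * c) ^ m + w) : ℕ) : ZMod p) = 0 := by
      rw [ZMod.natCast_eq_zero_iff]; exact hd
    simp only [Polynomial.eval_mul, Polynomial.eval_X, Polynomial.eval_add, Polynomial.eval_C,
      Polynomial.eval_pow]
    rw [← h1]
    push_cast
    ring
  calc _ = (((range p).filter (fun c => p ∣ (1 + M * c) * (u * (1 + M * c) ^ m + w))).image
      (fun c : ℕ => ((1 + M * c : ℕ) : ZMod p))).card := (card_image_of_injOn hinj).symm
    _ ≤ f.roots.toFinset.card := card_le_card hsub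
    _ ≤ Multiset.card f.roots := Multiset.toFinset_card_le _
    _ ≤ f.natDegree := Polynomial.card_roots' f
    _ ≤ m + 1 := hdeg

lemma card_class1 {p M : ℕ} (hp : p.Prime) (hM : ¬ p ∣ M) :
    ((range p).filter (fun c => p ∣ 1 + M * c)).card ≤ 1 := by
  classical
  have : Fact p.Prime := ⟨hp⟩
  have hM0 : (M : ZMod p) ≠ 0 := by
    rw [Ne, ZMod.natCast_eq_zero_iff]
    exact hM
  rw [card_le_one]
  intro a ha b hb
  have ha' := mem_range.1 (mem_filter.1 ha).1
  have hb' := mem_range.1 (mem_filter.1 hb).1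
  have h1 : ((1 + M * a : ℕ) : ZMod p) = 0 := (ZMod.natCast_eq_zero_iff _ _).2 (mem_filter.1 ha).2
  have h2 : ((1 + M * b : ℕ) : ZMod p) = 0 := (ZMod.natCast_eq_zero_iff _ _).2 (mem_filter.1 hb).2
  have hab : (M : ZMod p) * a = M * b := by
    push_cast at h1 h2
    linear_combination h1 - h2
  have h3 := mul_left_cancel₀ hM0 hab
  rw [ZMod.natCast_eq_natCast_iff] at h3
  exact Nat.ModEq.eq_of_lt_of_lt h3 ha' hb'

open Pool.Agent.Y987.SZ in
open Classical in
theorem many_x (m : ℕ) (hm : 1 ≤ m) : ∃ (κ c : ℝ) (L₀ : ℕ), 0 < κ ∧ κ ≤ 1 ∧ 0 < c ∧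
    ∀ L A M u w : ℕ, L₀ ≤ L → u ∣ M → (∀ p : ℕ, p.Prime → p ≤ m + 1 → p ∣ M) →
      c * (L / Real.log L ^ (m + 1)) ≤ (((Ioc A (A + L)).filter (fun n => ∀ p : ℕ, p.Prime →
        (p : ℝ) ≤ (L : ℝ) ^ κ → ¬ p ∣ M → ¬ p ∣ (1 + M * n) * (u * (1 + M * n) ^ m + w))).card : ℝ) := by
  obtain ⟨κ, c, hκ0, hκ1, hc, h⟩ := sifted (m + 1)
  obtain ⟨B, X₀, h⟩ := h 1 1 le_rfl one_pos
  refine ⟨κ, c, X₀, hκ0, hκ1, hc, fun L A M u w hL hu hM => ?_⟩
  set Z : ℕ → Finset ℕ := fun p => if p ∣ M then ∅ else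
    (range p).filter (fun c => p ∣ (1 + M * c) * (u * (1 + M * c) ^ m + w)) with hZ
  have hadm : Adm (m + 1) ((L : ℝ) ^ κ) Z := by
    intro p hp _
    by_cases hpM : p ∣ M
    · simp only [hZ, if_pos hpM, card_empty]
      exact ⟨Nat.zero_le _, hp.pos, fun c hc => absurd hc (notMem_empty c)⟩
    · simp only [hZ, if_neg hpM]
      have h1 := card_classes (w := w) hm hp hpM (fun hpu => hpM (hpu.trans hu))
      refine ⟨h1, lt_of_le_of_lt h1 ?_, fun c hc => mem_range.1 (mem_filter.1 hc).1⟩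
      by_contra hcon
      exact hpM (hM p hp (by omega))
  refine (h L A hL Z hadm).1.trans ?_
  have hsub : Sift L A ((L : ℝ) ^ κ) Z ⊆ (Ioc A (A + L)).filter (fun n => ∀ p : ℕ, p.Prime →
        (p : ℝ) ≤ (L : ℝ) ^ κ → ¬ p ∣ M → ¬ p ∣ (1 + M * n) * (u * (1 + M * n) ^ m + w)) := by
    intro n hn
    rw [mem_Sift] at hn
    rw [mem_filter, mem_Ioc]
    refine ⟨hn.1, fun p hp hpL hpM hd => ?_⟩
    have h1 := hn.2 p hp hpL
    apply h1
    simp only [hZ, if_neg hpM]
    rw [mem_filter, mem_range]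
    refine ⟨Nat.mod_lt _ hp.pos, ?_⟩
    have e : (1 + M * (n % p)) * (u * (1 + M * (n % p)) ^ m + w) ≡
        (1 + M * n) * (u * (1 + M * n) ^ m + w) [MOD p] := by
      have e1 : 1 + M * (n % p) ≡ 1 + M * n [MOD p] :=
        Nat.ModEq.add_left 1 ((Nat.mod_modEq n p).mul_left M)
      exact e1.mul (((e1.pow m).mul_left u).add_right w)
    exact (e.dvd_iff dvd_rfl).2 hd
  exact_mod_cast card_le_card hsub

open Pool.Agent.Y987.SZ in
open Classical in
theorem many_y : ∃ (κ c : ℝ) (L₀ : ℕ), 0 < κ ∧ κ ≤ 1 ∧ 0 < c ∧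
    ∀ L A M : ℕ, L₀ ≤ L →
      c * (L / Real.log L) ≤ (((Ioc A (A + L)).filter (fun n => ∀ p : ℕ, p.Prime →
        (p : ℝ) ≤ (L : ℝ) ^ κ → ¬ p ∣ M → ¬ p ∣ 1 + M * n)).card : ℝ) := by
  obtain ⟨κ, c, hκ0, hκ1, hc, h⟩ := sifted 1
  obtain ⟨B, X₀, h⟩ := h 1 1 le_rfl one_pos
  refine ⟨κ, c, X₀, hκ0, hκ1, hc, fun L A M hL => ?_⟩
  set Z : ℕ → Finset ℕ := fun p => if p ∣ M then ∅ else
    (range p).filter (fun c => p ∣ 1 + M * c) with hZ
  have hadm : Adm 1 ((L : ℝ) ^ κ) Z := by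
    intro p hp _
    by_cases hpM : p ∣ M
    · simp only [hZ, if_pos hpM, card_empty]
      exact ⟨Nat.zero_le _, hp.pos, fun c hc => absurd hc (notMem_empty c)⟩
    · simp only [hZ, if_neg hpM]
      have h1 := card_class1 hp hpM
      exact ⟨h1, lt_of_le_of_lt h1 hp.one_lt, fun c hc => mem_range.1 (mem_filter.1 hc).1⟩
  have h0 := (h L A hL Z hadm).1
  rw [pow_one] at h0
  refine h0.trans ?_
  have hsub : Sift L A ((L : ℝ) ^ κ) Z ⊆ (Ioc A (A + L)).filter (fun n => ∀ p : ℕ, p.Prime →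
        (p : ℝ) ≤ (L : ℝ) ^ κ → ¬ p ∣ M → ¬ p ∣ 1 + M * n) := by
    intro n hn
    rw [mem_Sift] at hn
    rw [mem_filter, mem_Ioc]
    refine ⟨hn.1, fun p hp hpL hpM hd => ?_⟩
    have h1 := hn.2 p hp hpL
    apply h1
    simp only [hZ, if_neg hpM]
    rw [mem_filter, mem_range]
    refine ⟨Nat.mod_lt _ hp.pos, ?_⟩
    have e : 1 + M * (n % p) ≡ 1 + M * n [MOD p] :=
        Nat.ModEq.add_left 1 ((Nat.mod_modEq n p).mul_left M)
    exact (e.dvd_iff dvd_rfl).2 hd
  exact_mod_cast card_le_card hsub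

open Classical in
/-- few `n` give a multiple of a prime factor of `y` -/
lemma bad_count (L A M y : ℕ) (z : ℝ) (hz : 1 ≤ z) (hy : 0 < y)
    (hyz : ∀ p : ℕ, p.Prime → p ∣ y → z ≤ p ∧ ¬ p ∣ M) :
    (((Ioc A (A + L)).filter (fun n => ¬ Nat.Coprime (1 + M * n) y)).card : ℝ) ≤
      (Nat.log 2 y : ℝ) * (L / z + 1) := by
  have hsub : (Ioc A (A + L)).filter (fun n => ¬ Nat.Coprime (1 + M * n) y) ⊆
      y.primeFactors.biUnion (fun p => (Ioc A (A + L)).filter (fun n => p ∣ 1 + M * n)) := by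
    intro n hn
    rw [mem_filter] at hn
    obtain ⟨p, hp, h1, h2⟩ := Nat.Prime.not_coprime_iff_dvd.1 hn.2
    rw [mem_biUnion]
    exact ⟨p, Nat.mem_primeFactors.2 ⟨hp, h2, hy.ne'⟩, mem_filter.2 ⟨hn.1, h1⟩⟩
  have hone : ∀ p ∈ y.primeFactors,
      (((Ioc A (A + L)).filter (fun n => p ∣ 1 + M * n)).card : ℝ) ≤ L / z + 1 := by
    intro p hp
    have hpp := Nat.prime_of_mem_primeFactors hp
    obtain ⟨hpz, hpM⟩ := hyz p hpp (Nat.dvd_of_mem_primeFactors hp)
    rcases ((Ioc A (A + L)).filter (fun n => p ∣ 1 + M * n)).eq_empty_or_nonempty with h | ⟨n₀, h₀⟩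
    · rw [h, card_empty]
      push_cast
      positivity
    · have h₀' := (mem_filter.1 h₀).2
      have hsub2 : (Ioc A (A + L)).filter (fun n => p ∣ 1 + M * n) ⊆
          (Ioc A (A + L)).filter (fun n => n ≡ n₀ [MOD p]) := by
        intro n hn
        rw [mem_filter] at hn ⊢
        refine ⟨hn.1, ?_⟩
        have h1 : 1 + M * n ≡ 1 + M * n₀ [MOD p] :=
          ((Nat.modEq_zero_iff_dvd.2 hn.2)).trans (Nat.modEq_zero_iff_dvd.2 h₀').symm
        have h2 : M * n ≡ M * n₀ [MOD p] := Nat.ModEq.add_left_cancel' 1 h1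
        exact Nat.ModEq.cancel_left_of_coprime ((Nat.Prime.coprime_iff_not_dvd hpp).2 hpM) h2
      have h3 := Nat.Ioc_filter_modEq_card A (A + L) hpp.pos n₀
      have hp0 : (0 : ℝ) < p := by exact_mod_cast hpp.pos
      have h4 : (((Ioc A (A + L)).filter (fun n => n ≡ n₀ [MOD p])).card : ℝ) ≤ L / p + 1 := by
        have h5 : ((((Ioc A (A + L)).filter (fun n => n ≡ n₀ [MOD p])).card : ℤ) : ℚ) ≤
            (L : ℚ) / p + 1 := by
          rw [h3]
          have hp0' : (0 : ℚ) < p := by exact_mod_cast hpp.pos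
          have h6 : (⌊(((A + L : ℕ) : ℚ) - n₀) / p⌋ : ℚ) ≤ (((A + L : ℕ) : ℚ) - n₀) / p :=
            Int.floor_le _
          have h7 : ((A : ℚ) - n₀) / p - 1 < ⌊((A : ℚ) - n₀) / p⌋ := Int.sub_one_lt_floor _
          have h8 : (((A + L : ℕ) : ℚ) - n₀) / p = ((A : ℚ) - n₀) / p + L / p := by
            push_cast
            ring
          push_cast at *
          apply max_le
          · push_cast
            linarith
          · positivity
        have h11 := (Rat.cast_le (K := ℝ)).2 h5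
        push_cast at h11
        exact h11
      have h9 : (L : ℝ) / p ≤ L / z := by
        apply div_le_div_of_nonneg_left (Nat.cast_nonneg _) (by linarith) hpz
      have h10 : (((Ioc A (A + L)).filter (fun n => p ∣ 1 + M * n)).card : ℝ) ≤
          (((Ioc A (A + L)).filter (fun n => n ≡ n₀ [MOD p])).card : ℝ) := by
        exact_mod_cast card_le_card hsub2
      linarith
  have hω : y.primeFactors.card ≤ Nat.log 2 y := by
    have h1 : 2 ^ y.primeFactors.card ≤ y := by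
      calc 2 ^ y.primeFactors.card = ∏ _p ∈ y.primeFactors, 2 := by rw [prod_const]
        _ ≤ ∏ p ∈ y.primeFactors, p :=
          prod_le_prod' fun p hp => (Nat.prime_of_mem_primeFactors hp).two_le
        _ ≤ y := Nat.le_of_dvd hy (Nat.prod_primeFactors_dvd y)
    exact Nat.le_log_of_pow_le (by norm_num) h1
  calc (((Ioc A (A + L)).filter (fun n => ¬ Nat.Coprime (1 + M * n) y)).card : ℝ)
      ≤ ((y.primeFactors.biUnion (fun p => (Ioc A (A + L)).filter (fun n => p ∣ 1 + M * n))).card : ℝ) := by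
        exact_mod_cast card_le_card hsub
    _ ≤ ((∑ p ∈ y.primeFactors, ((Ioc A (A + L)).filter (fun n => p ∣ 1 + M * n)).card : ℕ) : ℝ) := by
        exact_mod_cast card_biUnion_le
    _ = ∑ p ∈ y.primeFactors, (((Ioc A (A + L)).filter (fun n => p ∣ 1 + M * n)).card : ℝ) := by
        push_cast; rfl
    _ ≤ ∑ _p ∈ y.primeFactors, ((L : ℝ) / z + 1) := sum_le_sum hone
    _ = (y.primeFactors.card : ℝ) * (L / z + 1) := by rw [sum_const, nsmul_eq_mul]
    _ ≤ _ := by
        apply mul_le_mul_of_nonneg_right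
        · exact_mod_cast hω
        · positivity

/-- a number without small prime factors has few prime factors -/
lemma rough_omega (n : ℕ) (L κ K : ℝ) (hn : 0 < n) (hL : 1 < L) (hκ : 0 < κ) (hnK : (n : ℝ) ≤ L ^ K)
    (h : ∀ p : ℕ, p.Prime → p ∣ n → L ^ κ ≤ p) :
    (ArithmeticFunction.cardFactors n : ℝ) ≤ K / κ := by
  have hL0 : 0 < L := by linarith
  have key : ∀ l : List ℕ, (∀ p ∈ l, L ^ κ ≤ (p : ℝ)) → (L ^ κ) ^ l.length ≤ (l.prod : ℝ) := by
    intro l
    induction l with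
    | nil => intro _; simp
    | cons a t ih =>
      intro hl
      have h1 := hl a (by simp)
      have h2 := ih (fun p hp => hl p (by simp [hp]))
      rw [List.length_cons, pow_succ, List.prod_cons, mul_comm, Nat.cast_mul]
      exact mul_le_mul h1 h2 (by positivity) (by positivity)
  have h1 := key n.primeFactorsList (fun p hp => h p (Nat.prime_of_mem_primeFactorsList hp)
    (Nat.dvd_of_mem_primeFactorsList hp))
  rw [Nat.prod_primeFactorsList hn.ne'] at h1
  rw [ArithmeticFunction.cardFactors_apply]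
  have h2 : (L ^ κ) ^ n.primeFactorsList.length ≤ L ^ K := h1.trans hnK
  rw [← Real.rpow_natCast, ← Real.rpow_mul hL0.le] at h2
  have h3 := (Real.rpow_le_rpow_left_iff hL).1 h2
  rw [le_div_iff₀ hκ]
  linarith

end Pool.Agent.H461.Om
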