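import Pool.Agent.H461.Om.Pairs
import Pool.Agent.H461.Om.Num

/-!
# The curve of a good pair
-/

set_option autoImplicit false

namespace Pool.Agent.H461.Om

open Finset Filter Topology

lemma cop_M {M n a : ℕ} (h : a ∣ M) : Nat.Coprime (1 + M * n) a := by
  obtain ⟨k, rfl⟩ := h
  rw [mul_assoc]
  exact (Nat.coprime_add_mul_left_left 1 a (k * n)).2 (Nat.coprime_one_left a)

lemma modEq_M' {M n m u k : ℕ} (h : k ∣ M) : u * (1 + M * n) ^ m ≡ u [MOD k] := by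
  have h2 : 1 + M * n ≡ 1 [MOD k] := by
    have h3 : M * n ≡ 0 [MOD k] := Nat.modEq_zero_iff_dvd.2 (h.mul_right n)
    simpa using h3.add_left 1
  have h3 := (h2.pow m).mul_left u
  simpa using h3

lemma modEq_M {M n m u k : ℕ} (h : k ∣ M) :
    ((u * (1 + M * n) ^ m : ℕ) : ℤ) ≡ u [ZMOD (k : ℕ)] :=
  (Int.natCast_modEq_iff).2 (modEq_M' h)

/-- the cofactor of `u + v` -/
lemma cofactor {M m u v n n' : ℕ} (hu : 0 < u) (hv : 0 < v) (huvM : (u + v) ^ 2 ∣ M) :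
    ∃ w₁ : ℕ, u * (1 + M * n) ^ m + v * (1 + M * n') ^ m = (u + v) * w₁ ∧ 0 < w₁ ∧
      ∀ p : ℕ, p.Prime → p ∣ w₁ → ¬ p ∣ M := by
  set w := u * (1 + M * n) ^ m + v * (1 + M * n') ^ m with hw
  have hw0 : 0 < w := by positivity
  have hdiv : w ≡ u + v [MOD (u + v) ^ 2] := (modEq_M' huvM).add (modEq_M' huvM)
  obtain ⟨w₁, hw₁⟩ : (u + v) ∣ w := by
    have h1 : w ≡ u + v [MOD (u + v)] := hdiv.of_dvd (dvd_pow_self _ (by norm_num))
    exact (h1.dvd_iff dvd_rfl).2 dvd_rfl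
  have hw₁0 : 0 < w₁ := by
    rcases Nat.eq_zero_or_pos w₁ with h | h
    · rw [h, mul_zero] at hw₁; omega
    · exact h
  refine ⟨w₁, hw₁, hw₁0, ?_⟩
  intro p hp hpd hpM
  by_cases hpu : p ∣ u + v
  · have h1 : (u + v) * w₁ ≡ (u + v) * 1 [MOD (u + v) * (u + v)] := by
      rw [← hw₁, mul_one, ← pow_two]
      exact hdiv
    have h2 : w₁ ≡ 1 [MOD (u + v)] := Nat.ModEq.mul_left_cancel' (by omega) h1
    have h3 : w₁ ≡ 1 [MOD p] := h2.of_dvd hpu
    have h4 : p ∣ 1 := (h3.dvd_iff dvd_rfl).1 hpd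
    exact hp.one_lt.ne' (Nat.dvd_one.1 h4)
  · apply hpu
    have h3 : w ≡ u + v [MOD p] := (modEq_M' hpM).add (modEq_M' hpM)
    refine (h3.dvd_iff dvd_rfl).1 ?_
    rw [hw₁]
    exact hpd.mul_left _

/-- the sizes -/
lemma sizes {M m B u v L n n' : ℕ} {κ : ℝ} (hM0 : 0 < M) (hB : 1 ≤ B) (hL : 1 ≤ L)
    (hG : GoodPair m M B u v L κ n n') :
    L ≤ 1 + M * n ∧ 1 + M * n < 1 + M * n' ∧ 1 + M * n' ≤ (M * (B + 2) + 1) * L ∧
      (1 + M * n') * B ≤ (B + 2) * (1 + M * n) := by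
  obtain ⟨r1, r2, -, -, -, -⟩ := hG
  rw [mem_Ioc] at r1 r2
  have h1 : n ≤ M * n := Nat.le_mul_of_pos_left n hM0
  have h2 : L ≤ B * L := Nat.le_mul_of_pos_left L hB
  refine ⟨by omega, ?_, ?_, ?_⟩
  · have : n < n' := by omega
    have := Nat.mul_lt_mul_of_pos_left this hM0
    omega
  · have h1 : n' ≤ (B + 2) * L := by nlinarith
    have := Nat.mul_le_mul_left M h1
    calc 1 + M * n' ≤ 1 + M * ((B + 2) * L) := by omega
      _ ≤ L + M * ((B + 2) * L) := by omega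
      _ = _ := by ring
  · have h2 : n' * B ≤ (B + 2) * n := by nlinarith
    calc (1 + M * n') * B = B + M * (n' * B) := by ring
      _ ≤ (B + 2) + M * ((B + 2) * n) := by
          have := Nat.mul_le_mul_left M h2
          omega
      _ = (B + 2) * (1 + M * n) := by ring

/-- what we know of the curve of a pair -/
structure Out (W : WeierstrassCurve ℤ) (Q m M u v g B R L : ℕ) (η : ℝ) (n n' : ℕ)
    (W' : WeierstrassCurve ℤ) : Prop where
  a1 : W'.a₁ = W.a₁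
  a2 : W'.a₂ = W.a₂
  a3 : W'.a₃ = W.a₃
  a4 : (Q : ℤ) ∣ W'.a₄ - W.a₄
  a6 : (Q : ℤ) ∣ W'.a₆ - W.a₆
  j : |(W'.c₄ : ℝ) ^ 3 / W'.Δ - (W.c₄ : ℝ) ^ 3 / W.Δ| < η
  semi : Semistable W'
  full : Full W'
  c4 : W'.c₄ = (g : ℤ) ^ 2 * ((u * (1 + M * n) ^ m : ℕ) ^ 2 +
          (u * (1 + M * n) ^ m : ℕ) * (v * (1 + M * n') ^ m : ℕ) + (v * (1 + M * n') ^ m : ℕ) ^ 2)
  D : 256 * W'.Δ = (g : ℤ) ^ 6 * ((u * (1 + M * n) ^ m : ℕ) *
          (v * (1 + M * n') ^ m : ℕ) * ((u * (1 + M * n) ^ m : ℕ) + (v * (1 + M * n') ^ m : ℕ))) ^ 2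
  cond : cond W' ≤ 2 * u * v * (u + v) * (M * (B + 2) + 1) ^ (m + 2) * L ^ (m + 2)
  disc : (((L ^ (3 * m)) ^ 2 : ℕ) : ℤ) ≤ 256 * W'.Δ
  om : ArithmeticFunction.cardFactors W'.Δ.natAbs ≤ R

theorem step (W : WeierstrassCurve ℤ) (hW : Semistable W) (g u v : ℕ) (hg : g = 1 ∨ g = 2)
    (hu : 0 < u) (hv : 0 < v) (hcop : Nat.Coprime u v)
    (h4 : W.c₄ = (g : ℤ) ^ 2 * (u ^ 2 + u * v + v ^ 2))
    (hD : 256 * W.Δ = (g : ℤ) ^ 6 * (u * v * (u + v)) ^ 2) (Q m M : ℕ)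
    (hM0 : 0 < M) (hQM : 2 * 1728 * (2 * Q) ∣ M) (huvM : (u * v * (u + v)) ^ 2 ∣ M)
    (B : ℕ) (hB : 1 ≤ B) (η : ℝ)
    (hJ : ∀ r : ℝ, 1 ≤ r → r ≤ (((B : ℝ) + 2) / B) ^ m → |J ((v : ℝ) / u * r) - J ((v : ℝ) / u)| < η)
    (κ : ℝ) (hκ : 0 < κ) :
    ∃ R L₀ : ℕ, ∀ L : ℕ, L₀ ≤ L → ∀ n n' : ℕ, GoodPair m M B u v L κ n n' →
      ∃ W' : WeierstrassCurve ℤ, Out W Q m M u v g B R L η n n' W' := by
  set R₀ : ℕ := ⌈2 / κ⌉₊ with hR₀
  set R₁ : ℕ := ⌈(2 * (m : ℝ) + 1) / κ⌉₊ with hR₁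
  refine ⟨6 * ArithmeticFunction.cardFactors g + 2 * (ArithmeticFunction.cardFactors u + m * R₀ +
    (ArithmeticFunction.cardFactors v + m * R₀) + (ArithmeticFunction.cardFactors (u + v) + R₁)),
    max (M * (B + 2) + 1) (u + v) + 2, fun L hL n n' hG => ?_⟩
  have hL1 : M * (B + 2) + 1 ≤ L := by
    have := le_max_left (M * (B + 2) + 1) (u + v)
    omega
  have hL2 : u + v ≤ L := by
    have := le_max_right (M * (B + 2) + 1) (u + v)
    omega
  have hL3 : 2 ≤ L := by omega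
  obtain ⟨s1, s2, s3, s4⟩ := sizes hM0 hB (by omega) hG
  obtain ⟨-, -, hc, p1, p2, p3⟩ := hG
  have huM : u ∣ M := ((dvd_pow ((dvd_mul_right u v).mul_right _) two_ne_zero)).trans huvM
  have hvM : v ∣ M := ((dvd_pow ((dvd_mul_left v u).mul_right _) two_ne_zero)).trans huvM
  have hwM : (u + v) ^ 2 ∣ M := (pow_dvd_pow_of_dvd (dvd_mul_left _ _) 2).trans huvM
  obtain ⟨w₁, hw₁, hw₁0, hw₁M⟩ := cofactor (m := m) (n := n) (n' := n') hu hv hwM
  have e1 : Nat.Coprime (1 + M * n) v := cop_M hvM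
  have e2 : Nat.Coprime (1 + M * n') u := cop_M huM
  have m1 := modEq_M (n := n) (m := m) (u := u) hQM
  have m2 := modEq_M (n := n') (m := m) (u := v) hQM
  generalize hx : 1 + M * n = x at *
  generalize hy : 1 + M * n' = y at *
  generalize hK : M * (B + 2) + 1 = K at *
  have hx0 : 0 < x := by omega
  have hy0 : 0 < y := by omega
  -- coprimality
  have hc' : Nat.Coprime (u * x ^ m) (v * y ^ m) :=
    Nat.Coprime.mul_left (Nat.Coprime.mul_right hcop (e2.symm.pow_right m))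
      (Nat.Coprime.mul_right (e1.pow_left m) (hc.pow m m))
  have hux : 0 < u * x ^ m := by positivity
  have hvy : 0 < v * y ^ m := by positivity
  obtain ⟨W', w1, w2, w3, w4, w5, w6, w7, w8, w9⟩ := near_curve W hW g u v hg h4 hD (2 * Q)
    (dvd_mul_right 2 Q) (u * x ^ m) (v * y ^ m) hux hvy hc' m1 m2
  have hyL : y ≤ L ^ 2 := by
    calc y ≤ K * L := s3
      _ ≤ L * L := Nat.mul_le_mul_right _ hL1
      _ = _ := by ring
  have hLr : (1 : ℝ) < L := by exact_mod_cast (by omega : 1 < L)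
  set w := u * x ^ m + v * y ^ m with hw
  have hw0 : 0 < w := by omega
  have hwle : w ≤ (u + v) * y ^ m := by
    rw [hw, add_mul]
    exact Nat.add_le_add_right (Nat.mul_le_mul_left _ (Nat.pow_le_pow_left s2.le m)) _
  have hDw : 256 * W'.Δ = ((g ^ 6 * (u * x ^ m * (v * y ^ m) * w) ^ 2 : ℕ) : ℤ) := by
    rw [w7, hw]
    push_cast
    ring
  refine ⟨W', w1, w2, w3, ?_, ?_, ?_, w8, w9, ?_, ?_, ?_, ?_, ?_⟩
  · exact (Int.natCast_dvd_natCast.2 (dvd_mul_left Q 2)).trans w4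
  · exact (Int.natCast_dvd_natCast.2 (dvd_mul_left Q 2)).trans w5
  · -- the invariants are close
    rw [J_eq hg hux hvy w6 w7, J_eq hg hu hv h4 hD]
    have hu0 : (0 : ℝ) < u := by exact_mod_cast hu
    have hx0' : (0 : ℝ) < x := by exact_mod_cast hx0
    have hy0' : (0 : ℝ) < y := by exact_mod_cast hy0
    have hB0 : (0 : ℝ) < B := by exact_mod_cast hB
    have e : ((v * y ^ m : ℕ) : ℝ) / ((u * x ^ m : ℕ) : ℝ) = (v : ℝ) / u * ((y : ℝ) / x) ^ m := by
      push_cast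
      rw [div_pow]
      field_simp
    rw [e]
    apply hJ
    · apply one_le_pow₀
      rw [one_le_div hx0']
      exact_mod_cast s2.le
    · apply pow_le_pow_left₀ (by positivity)
      rw [div_le_div_iff₀ hx0' hB0]
      exact_mod_cast s4
  · rw [hx, hy]; exact w6
  · rw [hx, hy]; exact w7
  · rw [hK]
    exact num_cond2 s2.le s3 hwle (num_cond hg hu hv hx0 hy0 hw0 hDw)
  · exact num_disc hg hu hv s1 (s1.trans s2.le) hDw
  · -- the number of prime factors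
    have hxO : ArithmeticFunction.cardFactors x ≤ R₀ := by
      have h1 := rough_omega x L κ 2 hx0 hLr hκ (by
        have : x ≤ L ^ 2 := s2.le.trans hyL
        rw [Real.rpow_two]
        exact_mod_cast this) p1
      exact_mod_cast h1.trans (Nat.le_ceil _)
    have hyO : ArithmeticFunction.cardFactors y ≤ R₀ := by
      have h1 := rough_omega y L κ 2 hy0 hLr hκ (by
        rw [Real.rpow_two]
        exact_mod_cast hyL) p2
      exact_mod_cast h1.trans (Nat.le_ceil _)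
    have hwO : ArithmeticFunction.cardFactors w₁ ≤ R₁ := by
      have h1 := rough_omega w₁ L κ (2 * m + 1) hw₁0 hLr hκ (by
        have h2 : w₁ ≤ L ^ (2 * m + 1) := by
          calc w₁ ≤ (u + v) * w₁ := Nat.le_mul_of_pos_left _ (by omega)
            _ = w := hw₁.symm
            _ ≤ (u + v) * y ^ m := hwle
            _ ≤ L * (L ^ 2) ^ m := Nat.mul_le_mul hL2 (Nat.pow_le_pow_left hyL m)
            _ = L ^ (2 * m + 1) := by rw [← pow_mul]; ring
        have h3 : (L : ℝ) ^ (2 * (m : ℝ) + 1) = (L : ℝ) ^ (2 * m + 1) := by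
          rw [← Real.rpow_natCast]
          push_cast
          rfl
        rw [h3]
        exact_mod_cast h2) (fun p hp hpd => p3 p hp (hw₁M p hp hpd) (by
          rw [hw₁]
          exact hpd.mul_left _))
      have h2 := h1.trans (Nat.le_ceil _)
      rw [hR₁]
      exact_mod_cast h2
    have h5 := num_omega hg hu hv hx0 hy0 hw0 hDw
    have h6 : ArithmeticFunction.cardFactors w =
        ArithmeticFunction.cardFactors (u + v) + ArithmeticFunction.cardFactors w₁ := by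
      rw [hw₁]
      exact ArithmeticFunction.cardFactors_mul (by omega) hw₁0.ne'
    rw [h6] at h5
    have h7 := Nat.mul_le_mul_left m hxO
    have h8 := Nat.mul_le_mul_left m hyO
    omega

end Pool.Agent.H461.Om
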