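import Pool.Agent.H461.Om.Step

/-!
# Semistable curves near a given one, with a large discriminant composed of few primes
-/

set_option autoImplicit false

namespace Pool.Agent.H461.Om

open Finset Filter Topology

lemma exists_B (m : ℕ) (ρ η : ℝ) (hρ : 0 < ρ) (hη : 0 < η) :
    ∃ B : ℕ, 1 ≤ B ∧ ∀ r : ℝ, 1 ≤ r → r ≤ (((B : ℝ) + 2) / B) ^ m → |J (ρ * r) - J ρ| < η := by
  have hcont : ContinuousAt (fun r : ℝ => J (ρ * r)) 1 := by
    unfold J
    apply ContinuousAt.div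
    · fun_prop
    · fun_prop
    · rw [mul_one]
      positivity
  rw [Metric.continuousAt_iff] at hcont
  obtain ⟨δ, hδ, h⟩ := hcont η hη
  have ht : Tendsto (fun B : ℕ => (((B : ℝ) + 2) / B) ^ m) atTop (𝓝 1) := by
    have h1 : Tendsto (fun B : ℕ => 1 + (2 : ℝ) / B) atTop (𝓝 (1 + 0)) :=
      tendsto_const_nhds.add (tendsto_const_div_atTop_nhds_zero_nat 2)
    have h2 : Tendsto (fun B : ℕ => (1 + (2 : ℝ) / B) ^ m) atTop (𝓝 ((1 + 0) ^ m)) := h1.pow m
    rw [add_zero, one_pow] at h2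
    refine h2.congr' ?_
    filter_upwards [eventually_ge_atTop 1] with B hB
    have hB0 : (B : ℝ) ≠ 0 := by
      have : (0 : ℝ) < B := by exact_mod_cast hB
      exact this.ne'
    congr 1
    field_simp
  have h3 : ∀ᶠ B : ℕ in atTop, (((B : ℝ) + 2) / B) ^ m < 1 + δ := ht.eventually_lt_const (by linarith)
  obtain ⟨B, hB1, hB2⟩ := ((eventually_ge_atTop 1).and h3).exists
  refine ⟨B, hB1, fun r hr1 hr2 => ?_⟩
  have h4 := @h r (by
    rw [Real.dist_eq, abs_of_nonneg (by linarith)]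
    linarith)
  rw [Real.dist_eq, mul_one] at h4
  exact h4

lemma inj_aux {g : ℕ} (hg : g = 1 ∨ g = 2) {U V U' V' c4 c4' c6 c6' D D' : ℤ}
    (hU : 0 < U) (hV : 0 < V) (hU' : 0 < U') (hV' : 0 < V')
    (h4 : c4 = (g : ℤ) ^ 2 * (U ^ 2 + U * V + V ^ 2))
    (h4' : c4' = (g : ℤ) ^ 2 * (U' ^ 2 + U' * V' + V' ^ 2))
    (hD : 256 * D = (g : ℤ) ^ 6 * (U * V * (U + V)) ^ 2)
    (hD' : 256 * D' = (g : ℤ) ^ 6 * (U' * V' * (U' + V')) ^ 2)
    (hr : 1728 * D = c4 ^ 3 - c6 ^ 2) (hr' : 1728 * D' = c4' ^ 3 - c6' ^ 2)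
    (e4 : c4 = c4') (e6 : c6 = c6') : (U' = U ∧ V' = V) ∨ U' = V := by
  have hg0 : (g : ℤ) ≠ 0 := by rcases hg with rfl | rfl <;> norm_num
  have hDD : D = D' := by
    have : 1728 * D = 1728 * D' := by rw [hr, hr', e4, e6]
    linarith
  have h1 : U ^ 2 + U * V + V ^ 2 = U' ^ 2 + U' * V' + V' ^ 2 := by
    apply mul_left_cancel₀ (pow_ne_zero 2 hg0)
    rw [← h4, ← h4', e4]
  have h2 : (U * V * (U + V)) ^ 2 = (U' * V' * (U' + V')) ^ 2 := by
    apply mul_left_cancel₀ (pow_ne_zero 6 hg0)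
    rw [← hD, ← hD', hDD]
  have h3 : U * V * (U + V) = U' * V' * (U' + V') :=
    (pow_left_inj₀ (by positivity) (by positivity) two_ne_zero).1 h2
  have h5 : (U' - U) * (U' - V) * (U' + (U + V)) = 0 := by
    linear_combination (-U') * h1 + h3
  have h6 : U' + (U + V) ≠ 0 := by positivity
  rcases mul_eq_zero.mp h5 with h | h
  · rcases mul_eq_zero.mp h with h | h
    · left
      have e : U' = U := by linarith
      refine ⟨e, ?_⟩
      rw [e] at h1
      have h7 : (V - V') * (U + (V + V')) = 0 := by linear_combination h1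
      rcases mul_eq_zero.mp h7 with h | h
      · linarith
      · have : 0 < U + (V + V') := by positivity
        omega
    · right
      linarith
  · exact absurd h h6

theorem main (W : WeierstrassCurve ℤ) (hW : Semistable W) (hF : Full W) (Q m : ℕ) (hQ : 1 ≤ Q)
    (hm : 1 ≤ m) (η : ℝ) (hη : 0 < η) :
    ∃ (R : ℕ) (c X₀ : ℝ), 0 < c ∧ ∀ X : ℝ, X₀ ≤ X → ∃ S : Finset (ℤ × ℤ),
      c * (X ^ (2 / ((m : ℝ) + 2)) / Real.log X ^ (m + 2)) ≤ (S.card : ℝ) ∧
      ∀ q ∈ S, ∃ W' : WeierstrassCurve ℤ, q = (W'.c₄, W'.c₆) ∧ Semistable W' ∧ Full W' ∧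
        W'.a₁ = W.a₁ ∧ W'.a₂ = W.a₂ ∧ W'.a₃ = W.a₃ ∧ (Q : ℤ) ∣ W'.a₄ - W.a₄ ∧
        (Q : ℤ) ∣ W'.a₆ - W.a₆ ∧
        |(W'.c₄ : ℝ) ^ 3 / W'.Δ - (W.c₄ : ℝ) ^ 3 / W.Δ| < η ∧
        (cond W' : ℝ) ≤ X ∧
        c * X ^ (6 * (m : ℝ) / ((m : ℝ) + 2)) ≤ |(W'.Δ : ℝ)| ∧
        ArithmeticFunction.cardFactors W'.Δ.natAbs ≤ R := by
  classical
  obtain ⟨g, u, v, hg, hu, hv, hcop, h4, hD⟩ :=
    Pool.Agent.H925R.Szpiro.semi_pair W hW.1 hW.2 hF
  have hu0 : (0 : ℝ) < u := by exact_mod_cast hu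
  have hv0 : (0 : ℝ) < v := by exact_mod_cast hv
  obtain ⟨B, hB, hJ⟩ := exists_B m ((v : ℝ) / u) η (by positivity) hη
  set M : ℕ := 2 * 1728 * (2 * Q) * (u * v * (u + v)) ^ 2 * (m + 1).factorial with hM
  have hfac := Nat.factorial_pos (m + 1)
  have hM0 : 0 < M := by rw [hM]; positivity
  have hQM : 2 * 1728 * (2 * Q) ∣ M := by
    rw [hM, mul_assoc (2 * 1728 * (2 * Q))]
    exact dvd_mul_right _ _
  have huvM : (u * v * (u + v)) ^ 2 ∣ M := by
    rw [hM]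
    exact Dvd.dvd.mul_right (dvd_mul_left _ _) _
  have huM : u ∣ M := ((dvd_pow ((dvd_mul_right u v).mul_right _) two_ne_zero)).trans huvM
  have hMp : ∀ p : ℕ, p.Prime → p ≤ m + 1 → p ∣ M := by
    intro p hp hpm
    rw [hM]
    exact (Nat.dvd_factorial hp.pos hpm).mul_left _
  have hMbig : u + v < M + 1 := by
    have h1 : u + v ≤ (u * v * (u + v)) ^ 2 := by
      have h2 : 1 ≤ u * v := Nat.mul_pos hu hv
      have h3 : u + v ≤ u * v * (u + v) := Nat.le_mul_of_pos_left _ h2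
      exact h3.trans (Nat.le_self_pow two_ne_zero _)
    have := Nat.le_of_dvd hM0 huvM
    omega
  obtain ⟨κ, c, L₁, hκ, hc, hP⟩ := pairs m hm M u v B huM hMp
  obtain ⟨R, L₂, hS⟩ := step W hW g u v hg hu hv hcop h4 hD Q m M hM0 hQM huvM B hB η hJ κ hκ
  set K : ℕ := 2 * u * v * (u + v) * (M * (B + 2) + 1) ^ (m + 2) with hK
  have hK0 : 0 < K := by rw [hK]; positivity
  have hKr : (1 : ℝ) ≤ K := by exact_mod_cast hK0
  have hKr0 : (0 : ℝ) < K := by linarith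
  have hm2 : (0 : ℝ) < (m : ℝ) + 2 := by positivity
  set b : ℝ := 1 / ((m : ℝ) + 2) with hb
  have hb0 : 0 < b := by positivity
  set c' : ℝ := min (c / (4 * (K : ℝ) ^ (2 * b))) (1 / (256 * 2 ^ (6 * m) * (K : ℝ) ^ (6 * m * b))) with hc'
  have hc'0 : 0 < c' := lt_min (by positivity) (by positivity)
  -- the threshold
  have hten : Tendsto (fun X : ℝ => (X / K) ^ b) atTop atTop :=
    (tendsto_rpow_atTop hb0).comp (tendsto_id.atTop_div_const hKr0)
  obtain ⟨X₁, hX₁⟩ := eventually_atTop.1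
    (hten.eventually_ge_atTop ((max (max L₁ L₂) 3 : ℕ) + 1 : ℝ))
  refine ⟨R, c', max X₁ K, hc'0, fun X hX => ?_⟩
  have hXK : (K : ℝ) ≤ X := (le_max_right _ _).trans hX
  have hX0 : 0 < X := by linarith
  have hX1 : 1 ≤ X := by linarith
  set Z : ℝ := (X / K) ^ b with hZ
  have hZ1 : ((max (max L₁ L₂) 3 : ℕ) : ℝ) + 1 ≤ Z := hX₁ X ((le_max_left _ _).trans hX)
  have hZ0 : 0 ≤ Z := by positivity
  set L : ℕ := ⌊Z⌋₊ with hL
  have hLle : (L : ℝ) ≤ Z := Nat.floor_le hZ0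
  have hLge : Z < L + 1 := Nat.lt_floor_add_one Z
  have hLmax : max (max L₁ L₂) 3 ≤ L := by
    apply Nat.le_floor
    linarith
  have hLL1 : L₁ ≤ L := (le_max_left _ _).trans ((le_max_left _ _).trans hLmax)
  have hLL2 : L₂ ≤ L := (le_max_right _ _).trans ((le_max_left _ _).trans hLmax)
  have hL3 : 3 ≤ L := (le_max_right _ _).trans hLmax
  have hLr : (3 : ℝ) ≤ L := by exact_mod_cast hL3
  have hL0 : (0 : ℝ) < L := by linarith
  have hLZ : Z / 2 ≤ L := by linarith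
  have hZpow : Z ^ (m + 2) = X / K := by
    rw [hZ, ← Real.rpow_natCast, ← Real.rpow_mul (by positivity), hb]
    push_cast
    rw [one_div_mul_cancel hm2.ne', Real.rpow_one]
  obtain ⟨T, hT1, hT2⟩ := hP L hLL1
  have hex : ∀ t : ℕ × ℕ, ∃ W' : WeierstrassCurve ℤ, t ∈ T → Out W Q m M u v g B R L η t.1 t.2 W' := by
    intro t
    by_cases ht : t ∈ T
    · obtain ⟨W', hW'⟩ := hS L hLL2 t.1 t.2 (hT2 t ht)
      exact ⟨W', fun _ => hW'⟩
    · exact ⟨W, fun h => absurd h ht⟩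
  choose f hf using hex
  have hinj : Set.InjOn (fun t => ((f t).c₄, (f t).c₆)) (T : Set (ℕ × ℕ)) := by
    intro t ht t' ht' he
    simp only [Prod.mk.injEq] at he
    have o := hf t ht
    have o' := hf t' ht'
    have g1 := hT2 t ht
    have g2 := hT2 t' ht'
    have s := sizes hM0 hB (by omega) g1
    have s' := sizes hM0 hB (by omega) g2
    have hU : (0 : ℤ) < ((u * (1 + M * t.1) ^ m : ℕ) : ℤ) := by positivity
    have hV : (0 : ℤ) < ((v * (1 + M * t.2) ^ m : ℕ) : ℤ) := by positivity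
    have hU' : (0 : ℤ) < ((u * (1 + M * t'.1) ^ m : ℕ) : ℤ) := by positivity
    have hV' : (0 : ℤ) < ((v * (1 + M * t'.2) ^ m : ℕ) : ℤ) := by positivity
    have hm0 : m ≠ 0 := by omega
    rcases inj_aux hg hU hV hU' hV' o.c4 o'.c4 o.D o'.D (f t).c_relation (f t').c_relation he.1 he.2
      with ⟨h1, h2⟩ | h1
    · have h3 : u * (1 + M * t'.1) ^ m = u * (1 + M * t.1) ^ m := by exact_mod_cast h1
      have h4 : v * (1 + M * t'.2) ^ m = v * (1 + M * t.2) ^ m := by exact_mod_cast h2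
      have h5 : 1 + M * t'.1 = 1 + M * t.1 :=
        Nat.pow_left_injective hm0 (Nat.eq_of_mul_eq_mul_left hu h3)
      have h6 : 1 + M * t'.2 = 1 + M * t.2 :=
        Nat.pow_left_injective hm0 (Nat.eq_of_mul_eq_mul_left hv h4)
      have h7 : t'.1 = t.1 := Nat.eq_of_mul_eq_mul_left hM0 (by omega)
      have h8 : t'.2 = t.2 := Nat.eq_of_mul_eq_mul_left hM0 (by omega)
      exact (Prod.ext h7 h8).symm
    · exfalso
      have h3 : u * (1 + M * t'.1) ^ m = v * (1 + M * t.2) ^ m := by exact_mod_cast h1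
      have h5 : u ≡ v [MOD M] := by
        have e1 : u * (1 + M * t'.1) ^ m ≡ u [MOD M] := modEq_M' dvd_rfl
        have e2 : v * (1 + M * t.2) ^ m ≡ v [MOD M] := modEq_M' dvd_rfl
        rw [h3] at e1
        exact e1.symm.trans e2
      have h6 : u = v := Nat.ModEq.eq_of_lt_of_lt h5 (by omega) (by omega)
      rw [h6] at h3
      have h7 : 1 + M * t'.1 = 1 + M * t.2 :=
        Nat.pow_left_injective hm0 (Nat.eq_of_mul_eq_mul_left hv h3)
      have h8 : t'.1 = t.2 := Nat.eq_of_mul_eq_mul_left hM0 (by omega)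
      have r1 := mem_Ioc.1 g1.r2
      have r2 := mem_Ioc.1 g2.r1
      omega
  refine ⟨T.image (fun t => ((f t).c₄, (f t).c₆)), ?_, ?_⟩
  · rw [card_image_of_injOn hinj]
    refine le_trans ?_ hT1
    have hlogL : 0 < Real.log L := Real.log_pos (by linarith)
    have hLX : (L : ℝ) ≤ X := by
      refine hLle.trans ?_
      have h1 : X / K ≤ X := div_le_self hX0.le hKr
      have h2 : (1 : ℝ) ≤ X / K := by rw [one_le_div hKr0]; exact hXK
      calc Z ≤ (X / K) ^ (1 : ℝ) := by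
            apply Real.rpow_le_rpow_of_exponent_le h2
            rw [hb, div_le_one hm2]
            have : (0 : ℝ) ≤ m := Nat.cast_nonneg m
            linarith
        _ = X / K := Real.rpow_one _
        _ ≤ X := h1
    have hlog : Real.log L ≤ Real.log X := Real.log_le_log hL0 hLX
    have hZ2 : X ^ (2 / ((m : ℝ) + 2)) = (K : ℝ) ^ (2 * b) * Z ^ 2 := by
      have e : (2 : ℝ) / ((m : ℝ) + 2) = 2 * b := by rw [hb]; ring
      have e2 : Z ^ 2 = (X / K) ^ (2 * b) := by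
        rw [hZ, ← Real.rpow_natCast, ← Real.rpow_mul (by positivity)]
        congr 1
        push_cast
        ring
      rw [e, e2, Real.div_rpow hX0.le hKr0.le, mul_div_cancel₀]
      positivity
    calc c' * (X ^ (2 / ((m : ℝ) + 2)) / Real.log X ^ (m + 2))
        ≤ c / (4 * (K : ℝ) ^ (2 * b)) * (X ^ (2 / ((m : ℝ) + 2)) / Real.log X ^ (m + 2)) := by
          apply mul_le_mul_of_nonneg_right (min_le_left _ _)
          have : 0 < Real.log X := lt_of_lt_of_le hlogL hlog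
          positivity
      _ ≤ c / (4 * (K : ℝ) ^ (2 * b)) * (X ^ (2 / ((m : ℝ) + 2)) / Real.log L ^ (m + 2)) := by
          apply mul_le_mul_of_nonneg_left _ (by positivity)
          apply div_le_div_of_nonneg_left (by positivity) (by positivity)
          exact pow_le_pow_left₀ hlogL.le hlog _
      _ = c * ((Z / 2) ^ 2 / Real.log L ^ (m + 2)) := by
          rw [hZ2]
          have : (K : ℝ) ^ (2 * b) ≠ 0 := by positivity
          field_simp
          ring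
      _ ≤ c * ((L : ℝ) ^ 2 / Real.log L ^ (m + 2)) := by
          apply mul_le_mul_of_nonneg_left _ hc.le
          apply div_le_div_of_nonneg_right _ (by positivity)
          exact pow_le_pow_left₀ (by positivity) hLZ 2
  · intro q hq
    obtain ⟨t, ht, rfl⟩ := mem_image.1 hq
    have o := hf t ht
    have hcond : ((cond (f t) : ℕ) : ℝ) ≤ K * (L : ℝ) ^ (m + 2) := by
      have := o.cond
      rw [← hK] at this
      exact_mod_cast this
    refine ⟨f t, rfl, o.semi, o.full, o.a1, o.a2, o.a3, o.a4, o.a6, o.j, ?_, ?_, o.om⟩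
    · calc ((cond (f t) : ℕ) : ℝ) ≤ K * (L : ℝ) ^ (m + 2) := hcond
        _ ≤ K * Z ^ (m + 2) := by gcongr
        _ = X := by rw [hZpow]; field_simp
    · have hdisc : ((L : ℝ) ^ (3 * m)) ^ 2 ≤ 256 * ((f t).Δ : ℝ) := by
        have := o.disc
        exact_mod_cast this
      have hX6 : X ^ (6 * (m : ℝ) / ((m : ℝ) + 2)) = (K : ℝ) ^ (6 * m * b) * Z ^ (6 * m) := by
        have e : 6 * (m : ℝ) / ((m : ℝ) + 2) = 6 * m * b := by rw [hb]; ring
        have e2 : Z ^ (6 * m) = (X / K) ^ (6 * m * b) := by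
          rw [hZ, ← Real.rpow_natCast, ← Real.rpow_mul (by positivity)]
          congr 1
          push_cast
          ring
        rw [e, e2, Real.div_rpow hX0.le hKr0.le, mul_div_cancel₀]
        positivity
      calc c' * X ^ (6 * (m : ℝ) / ((m : ℝ) + 2))
          ≤ 1 / (256 * 2 ^ (6 * m) * (K : ℝ) ^ (6 * m * b)) * ((K : ℝ) ^ (6 * m * b) * Z ^ (6 * m)) := by
            rw [hX6]
            exact mul_le_mul_of_nonneg_right (min_le_right _ _) (by positivity)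
        _ = (Z / 2) ^ (6 * m) / 256 := by
            have : (K : ℝ) ^ (6 * m * b) ≠ 0 := by positivity
            rw [div_pow]
            field_simp
        _ ≤ (L : ℝ) ^ (6 * m) / 256 := by
            apply div_le_div_of_nonneg_right _ (by norm_num)
            exact pow_le_pow_left₀ (by positivity) hLZ _
        _ ≤ ((f t).Δ : ℝ) := by
            have e : (L : ℝ) ^ (6 * m) = ((L : ℝ) ^ (3 * m)) ^ 2 := by ring
            rw [e]
            linarith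
        _ ≤ |((f t).Δ : ℝ)| := le_abs_self _

/-- every exponent `κ < 6` -/
theorem main2 (W : WeierstrassCurve ℤ) (hW : Semistable W) (hF : Full W) (Q : ℕ) (hQ : 1 ≤ Q)
    (η : ℝ) (hη : 0 < η) (κ : ℝ) (hκ : κ < 6) :
    ∃ (R : ℕ) (θ X₀ : ℝ), 0 < θ ∧ ∀ X : ℝ, X₀ ≤ X → ∃ S : Finset (ℤ × ℤ),
      X ^ θ ≤ (S.card : ℝ) ∧
      ∀ q ∈ S, ∃ W' : WeierstrassCurve ℤ, q = (W'.c₄, W'.c₆) ∧ Semistable W' ∧ Full W' ∧
        W'.a₁ = W.a₁ ∧ W'.a₂ = W.a₂ ∧ W'.a₃ = W.a₃ ∧ (Q : ℤ) ∣ W'.a₄ - W.a₄ ∧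
        (Q : ℤ) ∣ W'.a₆ - W.a₆ ∧
        |(W'.c₄ : ℝ) ^ 3 / W'.Δ - (W.c₄ : ℝ) ^ 3 / W.Δ| < η ∧
        (cond W' : ℝ) ≤ X ∧ X ^ κ ≤ |(W'.Δ : ℝ)| ∧
        ArithmeticFunction.cardFactors W'.Δ.natAbs ≤ R := by
  -- the exponent
  obtain ⟨m₀, hm₀⟩ := exists_nat_gt (12 / (6 - κ))
  set m : ℕ := m₀ + 1 with hm
  have hm1 : 1 ≤ m := by omega
  have h6κ : 0 < 6 - κ := by linarith
  have hm2 : (0 : ℝ) < (m : ℝ) + 2 := by positivity
  have hκm : κ < 6 * (m : ℝ) / ((m : ℝ) + 2) := by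
    rw [lt_div_iff₀ hm2]
    rw [div_lt_iff₀ h6κ] at hm₀
    have : (m : ℝ) = m₀ + 1 := by rw [hm]; push_cast; ring
    nlinarith
  obtain ⟨R, c, X₀, hc, h⟩ := main W hW hF Q m hQ hm1 η hη
  set δ : ℝ := 6 * (m : ℝ) / ((m : ℝ) + 2) - κ with hδ
  have hδ0 : 0 < δ := by rw [hδ]; linarith
  set θ : ℝ := 1 / ((m : ℝ) + 2) with hθ
  have hθ0 : 0 < θ := by positivity
  have h1 := (isLittleO_log_rpow_rpow_atTop ((m + 2 : ℕ) : ℝ) hθ0).bound hc
  have h2 : ∀ᶠ X : ℝ in atTop, c⁻¹ ≤ X ^ δ := (tendsto_rpow_atTop hδ0).eventually_ge_atTop _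
  obtain ⟨X₁, hX₁⟩ := eventually_atTop.1 ((h1.and h2).and (eventually_gt_atTop (1 : ℝ)))
  refine ⟨R, θ, max X₀ X₁, hθ0, fun X hX => ?_⟩
  obtain ⟨⟨e1, e2⟩, e3⟩ := hX₁ X ((le_max_right _ _).trans hX)
  have hX0 : 0 < X := by linarith
  have hlog : 0 < Real.log X := Real.log_pos e3
  obtain ⟨S, hS1, hS2⟩ := h X ((le_max_left _ _).trans hX)
  refine ⟨S, ?_, fun q hq => ?_⟩
  · refine le_trans ?_ hS1
    rw [Real.rpow_natCast, Real.norm_eq_abs, Real.norm_eq_abs, abs_of_nonneg (by positivity),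
      abs_of_nonneg (by positivity)] at e1
    have e4 : X ^ (2 / ((m : ℝ) + 2)) = X ^ θ * X ^ θ := by
      rw [← Real.rpow_add hX0]
      congr 1
      rw [hθ]
      ring
    rw [e4, ← mul_div_assoc, le_div_iff₀ (by positivity)]
    calc X ^ θ * Real.log X ^ (m + 2) ≤ X ^ θ * (c * X ^ θ) :=
          mul_le_mul_of_nonneg_left e1 (by positivity)
      _ = c * (X ^ θ * X ^ θ) := by ring
  · obtain ⟨W', w⟩ := hS2 q hq
    refine ⟨W', w.1, w.2.1, w.2.2.1, w.2.2.2.1, w.2.2.2.2.1, w.2.2.2.2.2.1, w.2.2.2.2.2.2.1,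
      w.2.2.2.2.2.2.2.1, w.2.2.2.2.2.2.2.2.1, w.2.2.2.2.2.2.2.2.2.1, ?_, w.2.2.2.2.2.2.2.2.2.2.2⟩
    refine le_trans ?_ w.2.2.2.2.2.2.2.2.2.2.1
    have e5 : X ^ (6 * (m : ℝ) / ((m : ℝ) + 2)) = X ^ κ * X ^ δ := by
      rw [← Real.rpow_add hX0]
      congr 1
      rw [hδ]
      ring
    rw [e5]
    have e6 : 1 ≤ c * X ^ δ := by
      have := mul_le_mul_of_nonneg_left e2 hc.le
      rwa [mul_inv_cancel₀ hc.ne'] at this
    calc X ^ κ = X ^ κ * 1 := (mul_one _).symm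
      _ ≤ X ^ κ * (c * X ^ δ) := mul_le_mul_of_nonneg_left e6 (by positivity)
      _ = _ := by ring

end Pool.Agent.H461.Om
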